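import Pool.Agent.TH84.NC.Num

/-!
# Numerical estimates for the method of pairs
-/

set_option autoImplicit false

namespace Pool.Agent.TH84.NC

/-- the main factor -/
theorem pairs_rate {d k : ℕ} (hk : 5 * k ≤ d) :
    ((2 - 9 / 50 : ℝ) / (9 / 50)) ^ k / (1 - 9 / 50) ^ d ≤ 2 ^ d * Real.exp (-(0.0295 * d)) := by
  have e1 : ((2 - 9 / 50 : ℝ) / (9 / 50)) = 91 / 9 := by norm_num
  have e2 : (1 - 9 / 50 : ℝ) = 41 / 50 := by norm_num
  rw [e1, e2]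
  set Y : ℝ := (91 / 9 : ℝ) ^ k / (41 / 50) ^ d with hY
  have hY0 : 0 ≤ Y := by rw [hY]; positivity
  have h1 : Y ^ 5 ≤ (2 ^ d * Real.exp (-(0.0295 * d))) ^ 5 := by
    have a1 : Y ^ 5 = (91 / 9 : ℝ) ^ (5 * k) / ((41 / 50) ^ 5) ^ d := by
      rw [hY, div_pow, ← pow_mul, ← pow_mul, ← pow_mul, mul_comm k 5, mul_comm d 5]
    have a2 : (91 / 9 : ℝ) ^ (5 * k) ≤ (91 / 9) ^ d := pow_le_pow_right₀ (by norm_num) hk
    have a3 : (2 ^ d * Real.exp (-(0.0295 * d))) ^ 5 = (32 * Real.exp (-0.1475)) ^ d := by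
      rw [mul_pow, mul_pow, ← Real.exp_nat_mul, ← Real.exp_nat_mul, ← pow_mul, mul_comm d 5,
        pow_mul]
      norm_num
      ring
    have a4 : (91 / 9 : ℝ) / (41 / 50) ^ 5 ≤ 32 * Real.exp (-0.1475) := by
      have := Real.add_one_le_exp (-0.1475 : ℝ)
      norm_num at this ⊢
      linarith
    rw [a1, a3]
    calc (91 / 9 : ℝ) ^ (5 * k) / ((41 / 50) ^ 5) ^ d ≤ (91 / 9 : ℝ) ^ d / ((41 / 50) ^ 5) ^ d :=
          div_le_div_of_nonneg_right a2 (by positivity)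
      _ = ((91 / 9 : ℝ) / (41 / 50) ^ 5) ^ d := (div_pow (91 / 9 : ℝ) ((41 / 50) ^ 5) d).symm
      _ ≤ _ := pow_le_pow_left₀ (by positivity) a4 d
  exact le_of_pow_le_pow_left₀ (by norm_num) (by positivity) h1

/-- **the strict bound** -/
theorem pairs_num {d k : ℕ} (hd : 1024 ≤ d) (hk : 5 * k ≤ d) :
    (1 - 1 / (d:ℝ)) * 2 ^ d + (1 + 4 * (d * (d + 1)) * Real.log (20 * d ^ 6 + 1) *
        (((2 - 9 / 50 : ℝ) / (9 / 50)) ^ k / (1 - 9 / 50) ^ d)) < 2 ^ d := by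
  have hd1 : (1024:ℝ) ≤ d := by exact_mod_cast hd
  have hd0 : (0:ℝ) < d := by linarith
  have hl2 : 0.6931471803 < Real.log 2 := Real.log_two_gt_d9
  have hl2' : Real.log 2 < 0.6931471808 := Real.log_two_lt_d9
  set l : ℝ := Real.log d with hl
  have h1024 : Real.log 1024 = 10 * Real.log 2 := by
    rw [show (1024:ℝ) = 2 ^ 10 by norm_num, Real.log_pow]; norm_num
  have hlle : l ≤ d / 1024 + 5.9315 := by
    have h2 := Real.log_le_sub_one_of_pos (show 0 < (d:ℝ) / 1024 by positivity)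
    rw [Real.log_div (by positivity) (by norm_num), h1024] at h2
    linarith
  have hlog : Real.log (20 * (d:ℝ) ^ 6 + 1) ≤ d / 16 := by
    have h2 : 20 * (d:ℝ) ^ 6 + 1 ≤ 2 ^ 5 * d ^ 6 := by
      have : 1 ≤ (d:ℝ) ^ 6 := one_le_pow₀ (by linarith)
      linarith
    have h3 := Real.log_le_log (by positivity) h2
    rw [Real.log_mul (by positivity) (by positivity), Real.log_pow, Real.log_pow] at h3
    push_cast at h3
    have h8 : Real.log d = l := rfl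
    linarith
  have hlogn : 0 ≤ Real.log (20 * (d:ℝ) ^ 6 + 1) := by
    apply Real.log_nonneg
    have : 0 ≤ 20 * (d:ℝ) ^ 6 := by positivity
    linarith
  have hrate := pairs_rate hk
  set Y : ℝ := ((2 - 9 / 50 : ℝ) / (9 / 50)) ^ k / (1 - 9 / 50) ^ d with hY
  set Z : ℝ := Real.exp (-(0.0295 * d)) with hZ
  have hZ0 : 0 < Z := Real.exp_pos _
  have hT0 : (0:ℝ) < 2 ^ d := by positivity
  have h4 : (d:ℝ) ^ 4 * Z ≤ 1 := by
    have e : (d:ℝ) ^ 4 = Real.exp (4 * l) := by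
      rw [mul_comm 4 l, Real.exp_mul, Real.exp_log hd0]
      norm_cast
    rw [e, hZ, ← Real.exp_add]
    rw [← Real.exp_zero]
    apply Real.exp_le_exp.2
    linarith
  have h5 : (d:ℝ) ≤ 2 ^ d / 4 := by
    have a1 : (d:ℝ) ^ 4 ≤ 2 ^ d := by
      have e : (d:ℝ) ^ 4 = Real.exp (4 * l) := by
        rw [mul_comm 4 l, Real.exp_mul, Real.exp_log hd0]
        norm_cast
      have e2 : (2:ℝ) ^ d = Real.exp (d * Real.log 2) := by
        rw [mul_comm, Real.exp_mul, Real.exp_log (by norm_num), Real.rpow_natCast]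
      rw [e, e2]
      apply Real.exp_le_exp.2
      nlinarith
    have a2 : 4 * (d:ℝ) ≤ d ^ 4 := by
      have c1 : (d:ℝ) ≤ d ^ 3 := le_self_pow₀ (by linarith) (by norm_num)
      have c2 : 4 * (d:ℝ) ^ 3 ≤ d * d ^ 3 :=
        mul_le_mul_of_nonneg_right (by linarith) (by positivity)
      have c3 : (d:ℝ) * d ^ 3 = d ^ 4 := by ring
      linarith
    linarith
  have h6 : 4 * (d * ((d:ℝ) + 1)) * Real.log (20 * d ^ 6 + 1) * Y ≤
      4 * (d * ((d:ℝ) + 1)) * (d / 16) * (2 ^ d * Z) := by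
    apply mul_le_mul _ hrate (by rw [hY]; norm_num; positivity) (by positivity)
    exact mul_le_mul_of_nonneg_left hlog (by positivity)
  have h7 : (d:ℝ) * (4 * (d * ((d:ℝ) + 1)) * (d / 16) * (2 ^ d * Z)) ≤ 2 ^ d / 2 := by
    have e : (d:ℝ) * (4 * (d * ((d:ℝ) + 1)) * (d / 16) * (2 ^ d * Z)) =
        (d ^ 4 + d ^ 3) / 4 * Z * 2 ^ d := by ring
    rw [e]
    have a1 : ((d:ℝ) ^ 4 + d ^ 3) / 4 ≤ d ^ 4 / 2 := by
      have c2 : 1 * (d:ℝ) ^ 3 ≤ d * d ^ 3 :=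
        mul_le_mul_of_nonneg_right (by linarith) (by positivity)
      have c3 : (d:ℝ) * d ^ 3 = d ^ 4 := by ring
      linarith
    have a2 : ((d:ℝ) ^ 4 + d ^ 3) / 4 * Z ≤ d ^ 4 / 2 * Z := mul_le_mul_of_nonneg_right a1 hZ0.le
    have a3 : ((d:ℝ) ^ 4 + d ^ 3) / 4 * Z ≤ 1 / 2 := by linarith
    have a4 := mul_le_mul_of_nonneg_right a3 hT0.le
    linarith
  have h8 : (d:ℝ) * (1 + 4 * (d * ((d:ℝ) + 1)) * Real.log (20 * d ^ 6 + 1) * Y) < 2 ^ d := by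
    have a1 := mul_le_mul_of_nonneg_left h6 hd0.le
    have a2 : (d:ℝ) * (1 + 4 * (d * ((d:ℝ) + 1)) * Real.log (20 * d ^ 6 + 1) * Y) =
        d + d * (4 * (d * ((d:ℝ) + 1)) * Real.log (20 * d ^ 6 + 1) * Y) := by ring
    rw [a2]
    linarith
  have h9 : 1 + 4 * (d * ((d:ℝ) + 1)) * Real.log (20 * d ^ 6 + 1) * Y < 1 / d * 2 ^ d := by
    rw [one_div, inv_mul_eq_div, lt_div_iff₀ hd0, mul_comm]
    exact h8
  have e : (1 - 1 / (d:ℝ)) * 2 ^ d = 2 ^ d - 1 / d * 2 ^ d := by ring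
  rw [e]
  linarith

end Pool.Agent.TH84.NC
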