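import Pool.Agent.TH84.NC.Main

/-!
# Bodies with small normal cones are closed under adding convex sets
-/

set_option autoImplicit false

open Set
open scoped Pointwise

namespace Pool.Agent.TH84.NC

open Pool.Agent.PZ871 (E)
open Pool.Agent.TH84.HC

theorem body_add {d : ℕ} {A B : Set (E d)} (hA : IsBody A) (hB : Convex ℝ B) (hBc : IsCompact B)
    (hBn : B.Nonempty) : IsBody (A + B) := by
  refine ⟨hA.1.add hB, hA.2.1.add hBc, ?_⟩
  obtain ⟨a, ha⟩ := hA.2.2
  obtain ⟨b, hb⟩ := hBn
  have h1 : IsOpen ((fun x : E d => x - b) ⁻¹' interior A) :=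
    isOpen_interior.preimage (continuous_id.sub continuous_const)
  have h2 : (fun x : E d => x - b) ⁻¹' interior A ⊆ A + B := by
    intro x hx
    refine Set.mem_add.2 ⟨x - b, interior_subset hx, b, hb, ?_⟩
    abel
  refine ⟨a + b, interior_maximal h2 h1 ?_⟩
  show a + b - b ∈ interior A
  rwa [add_sub_cancel_right]

theorem normal_add {d k : ℕ} {A B : Set (E d)}
    (h : ∀ x ∈ Set.extremePoints ℝ A, NormalDim A k x) :
    ∀ x ∈ Set.extremePoints ℝ (A + B), NormalDim (A + B) k x := by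
  intro x hx
  obtain ⟨a, ha, b, hb, hab⟩ := Set.mem_add.1 hx.1
  have hext : a ∈ Set.extremePoints ℝ A := by
    refine ⟨ha, fun a1 ha1 a2 ha2 hseg => ?_⟩
    obtain ⟨s, t, hs, ht, hst, hsum⟩ := hseg
    have h2 : x ∈ openSegment ℝ (a1 + b) (a2 + b) := by
      refine ⟨s, t, hs, ht, hst, ?_⟩
      have e : s • (a1 + b) + t • (a2 + b) = (s • a1 + t • a2) + (s + t) • b := by
        rw [smul_add, smul_add, add_smul]
        abel
      rw [e, hsum, hst, one_smul, hab]
    have h3 := hx.2 (Set.add_mem_add ha1 hb) (Set.add_mem_add ha2 hb) h2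
    rw [← hab] at h3
    exact add_right_cancel h3
  obtain ⟨Λ, hΛ, hN⟩ := h a hext
  refine ⟨Λ, hΛ, fun f hf v hv => hN f (fun z hz => ?_) v hv⟩
  have h4 := hf (z + b) (Set.add_mem_add hz hb)
  rw [← hab, map_add, map_add] at h4
  linarith

end Pool.Agent.TH84.NC
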