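import Mathlib
import Pool.Agent.H212R2.KLS.T1

/-!
# The part of a symmetric body over a small homothet of its projection
-/

set_option autoImplicit false

open MeasureTheory Set
open scoped ENNReal

namespace Pool.Agent.TH84.NC

/-- a consequence of the Prekopa-Leindler inequality for a set and its reflection -/
theorem fib_mono {F : Type*} [NormedAddCommGroup F] [NormedSpace ℝ F] [FiniteDimensional ℝ F]
    [MeasurableSpace F] [BorelSpace F] (ν : Measure F) [ν.IsAddHaarMeasure]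
    (A D : Set F) (hA : MeasurableSet A) (hD : MeasurableSet D) (t : ℝ)
    (ht0 : 0 < t) (ht1 : t < 1) (h : ∀ x ∈ A, ∀ y ∈ A, (1 - t) • x - t • y ∈ D) : ν A ≤ ν D := by
  have hC : MeasurableSet ((fun x : F => (-1:ℝ) • x) ⁻¹' A) :=
    hA.preimage (measurable_const_smul (-1:ℝ))
  have hneg : ν ((fun x : F => (-1:ℝ) • x) ⁻¹' A) = ν A := by
    rw [Measure.addHaar_preimage_smul ν (by norm_num : (-1:ℝ) ≠ 0)]
    simp
  have hPL := Pool.Agent.H212R2.KLS.PL ν t ht0 ht1 (A.indicator 1)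
    (((fun x : F => (-1:ℝ) • x) ⁻¹' A).indicator 1) (D.indicator 1)
    (measurable_one.indicator hA) (measurable_one.indicator hC) (measurable_one.indicator hD) ?_
  · rw [lintegral_indicator_one hA, lintegral_indicator_one hC, lintegral_indicator_one hD, hneg,
      ← ENNReal.rpow_add_of_nonneg _ _ (by linarith) ht0.le] at hPL
    simpa using hPL
  · intro x y
    by_cases hx : x ∈ A
    · by_cases hy : y ∈ (fun x : F => (-1:ℝ) • x) ⁻¹' A
      · have hxy : (1 - t) • x + t • y ∈ D := by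
          have h1 := h x hx _ hy
          have e : (1 - t) • x - t • ((-1:ℝ) • y) = (1 - t) • x + t • y := by
            rw [neg_one_smul, smul_neg, sub_neg_eq_add]
          rwa [e] at h1
        rw [indicator_of_mem hx, indicator_of_mem hy, indicator_of_mem hxy]
        simp
      · rw [indicator_of_notMem hy, ENNReal.zero_rpow_of_pos ht0, mul_zero]
        exact bot_le
    · rw [indicator_of_notMem hx, ENNReal.zero_rpow_of_pos (by linarith), zero_mul]
      exact bot_le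

/-- change of variables -/
theorem lint_smul {F : Type*} [NormedAddCommGroup F] [NormedSpace ℝ F] [FiniteDimensional ℝ F]
    [MeasurableSpace F] [BorelSpace F] (ν : Measure F) [ν.IsAddHaarMeasure] (θ : ℝ) (h0 : 0 < θ)
    (g : F → ℝ≥0∞) (hg : Measurable g) :
    ∫⁻ y, g y ∂ν = ENNReal.ofReal (θ ^ Module.finrank ℝ F) * ∫⁻ y, g (θ • y) ∂ν := by
  have h1 := Measure.map_addHaar_smul ν h0.ne'
  have h2 : ∫⁻ y, g (θ • y) ∂ν = ∫⁻ y, g y ∂(Measure.map (fun x => θ • x) ν) :=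
    (lintegral_map hg (measurable_const_smul θ)).symm
  rw [h2, h1, lintegral_smul_measure, smul_eq_mul, ← mul_assoc, ← ENNReal.ofReal_mul (by positivity),
    abs_of_pos (by positivity), mul_inv_cancel₀ (by positivity), ENNReal.ofReal_one, one_mul]

/-- product form -/
theorem fiber_prod {F₁ F₂ : Type*} [NormedAddCommGroup F₁] [NormedSpace ℝ F₁]
    [FiniteDimensional ℝ F₁] [MeasurableSpace F₁] [BorelSpace F₁] [NormedAddCommGroup F₂]
    [NormedSpace ℝ F₂] [FiniteDimensional ℝ F₂] [MeasurableSpace F₂] [BorelSpace F₂]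
    (ν₁ : Measure F₁) [ν₁.IsAddHaarMeasure] (ν₂ : Measure F₂) [ν₂.IsAddHaarMeasure]
    (M : Set (F₁ × F₂)) (hMc : IsCompact M) (hconv : Convex ℝ M) (hsym : ∀ p ∈ M, -p ∈ M)
    (θ : ℝ) (h0 : 0 < θ) (h1 : θ < 1) :
    ENNReal.ofReal (θ ^ Module.finrank ℝ F₁) * (ν₁.prod ν₂) M ≤
      (ν₁.prod ν₂) {p | p ∈ M ∧ ∃ q ∈ M, p.1 = θ • q.1} := by
  have hMm : MeasurableSet M := hMc.measurableSet
  set π : Set F₁ := Prod.fst '' M with hπ
  have hπc : IsCompact π := hMc.image continuous_fst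
  set B : Set F₁ := (fun y => θ • y) '' π with hB
  have hBc : IsCompact B := hπc.image (continuous_const_smul θ)
  have hBm : MeasurableSet B := hBc.measurableSet
  have hS : {p : F₁ × F₂ | p ∈ M ∧ ∃ q ∈ M, p.1 = θ • q.1} = M ∩ Prod.fst ⁻¹' B := by
    ext p
    constructor
    · rintro ⟨hp, q, hq, hpq⟩
      exact ⟨hp, q.1, ⟨q, hq, rfl⟩, hpq.symm⟩
    · rintro ⟨hp, y, ⟨q, hq, rfl⟩, hy⟩
      exact ⟨hp, q, hq, hy.symm⟩
  have hSm : MeasurableSet (M ∩ Prod.fst ⁻¹' B : Set (F₁ × F₂)) := hMm.inter (measurable_fst hBm)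
  rw [hS, Measure.prod_apply hSm, Measure.prod_apply hMm]
  set ρ : F₁ → ℝ≥0∞ := fun y => ν₂ (Prod.mk y ⁻¹' M) with hρ
  have hρm : Measurable ρ := measurable_measure_prodMk_left hMm
  have e1 : ∀ y, ν₂ (Prod.mk y ⁻¹' (M ∩ Prod.fst ⁻¹' B)) = B.indicator ρ y := by
    intro y
    by_cases hy : y ∈ B
    · rw [indicator_of_mem hy]
      congr 1
      ext z
      simp [hy]
    · rw [indicator_of_notMem hy]
      have : Prod.mk y ⁻¹' (M ∩ Prod.fst ⁻¹' B) = ∅ := by
        ext z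
        simp [hy]
      rw [this, measure_empty]
  simp_rw [e1]
  rw [lint_smul ν₁ θ h0 _ (hρm.indicator hBm)]
  refine mul_le_mul_right ?_ _
  refine lintegral_mono fun y => ?_
  by_cases hy : y ∈ π
  · have hyB : θ • y ∈ B := ⟨y, hy, rfl⟩
    rw [indicator_of_mem hyB]
    have hmy : ∀ y, MeasurableSet (Prod.mk y ⁻¹' M : Set F₂) := fun y => measurable_prodMk_left hMm
    refine fib_mono ν₂ _ _ (hmy y) (hmy _) ((1 - θ) / 2) (by linarith) (by linarith) ?_
    intro x hx z hz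
    have hz' := hsym _ hz
    have h2 := hconv hx hz' (show 0 ≤ 1 - (1 - θ) / 2 by linarith)
      (show 0 ≤ (1 - θ) / 2 by linarith) (by ring)
    have e : (1 - (1 - θ) / 2) • (y, x) + ((1 - θ) / 2) • (-(y, z)) =
        (θ • y, (1 - (1 - θ) / 2) • x - ((1 - θ) / 2) • z) := by
      rw [Prod.neg_mk, Prod.smul_mk, Prod.smul_mk, Prod.mk_add_mk]
      congr 1
      · rw [smul_neg, ← sub_eq_add_neg, ← sub_smul]
        congr 1
        ring
      · rw [smul_neg, ← sub_eq_add_neg]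
    rw [e] at h2
    exact h2
  · have : ρ y = 0 := by
      show ν₂ (Prod.mk y ⁻¹' M) = 0
      have : Prod.mk y ⁻¹' M = ∅ := by
        ext z
        simp only [mem_preimage, mem_empty_iff_false, iff_false]
        intro hz
        exact hy ⟨_, hz, rfl⟩
      rw [this, measure_empty]
    show ρ y ≤ _
    rw [this]
    exact bot_le

/-- **the part over a small homothet of the projection** -/
theorem fiber_E {V : Type*} [NormedAddCommGroup V] [NormedSpace ℝ V] [FiniteDimensional ℝ V]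
    [MeasurableSpace V] [BorelSpace V] (μ : Measure V) [μ.IsAddHaarMeasure] (K : Set V)
    (hKc : IsCompact K) (hconv : Convex ℝ K) (hsym : ∀ x ∈ K, -x ∈ K) (P : V →L[ℝ] V) (k : ℕ)
    (hP : Module.finrank ℝ V ≤ Module.finrank ℝ (LinearMap.ker (P : V →ₗ[ℝ] V)) + k)
    (θ : ℝ) (h0 : 0 < θ) (h1 : θ < 1) :
    ENNReal.ofReal (θ ^ k) * μ K ≤ μ {w | w ∈ K ∧ ∃ z ∈ K, P w = θ • P z} := by
  set Λ : Submodule ℝ V := LinearMap.ker (P : V →ₗ[ℝ] V) with hΛ
  obtain ⟨Λ', hc⟩ := Submodule.exists_isCompl Λ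
  let e₀ : (Λ' × Λ) ≃ₗ[ℝ] V := Submodule.prodEquivOfIsCompl Λ' Λ hc.symm
  let e : (Λ' × Λ) ≃L[ℝ] V := e₀.toContinuousLinearEquiv
  have he : ∀ p : Λ' × Λ, e p = (p.1 : V) + p.2 := by
    intro p
    show e₀ p = _
    exact Submodule.coe_prodEquivOfIsCompl' Λ' Λ hc.symm p
  let ν₁ : Measure Λ' := Measure.addHaar
  let ν₂ : Measure Λ := Measure.addHaar
  have hmap : (Measure.map e (ν₁.prod ν₂)).IsAddHaarMeasure := e.isAddHaarMeasure_map (ν₁.prod ν₂)
  have hc' := Measure.isAddLeftInvariant_eq_smul μ (Measure.map e (ν₁.prod ν₂))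
  set c := Measure.addHaarScalarFactor μ (Measure.map e (ν₁.prod ν₂)) with hcd
  have hem : Measurable e := e.continuous.measurable
  have hMc : IsCompact (e ⁻¹' K) := by
    have h2 : IsCompact (e.toHomeomorph ⁻¹' K) := e.toHomeomorph.isCompact_preimage.2 hKc
    exact h2
  have hconv' : Convex ℝ (e ⁻¹' K) := hconv.linear_preimage (e : (Λ' × Λ) →ₗ[ℝ] V)
  have hsym' : ∀ p ∈ e ⁻¹' K, -p ∈ e ⁻¹' K := by
    intro p hp
    show e (-p) ∈ K
    rw [map_neg]
    exact hsym _ hp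
  have h := fiber_prod ν₁ ν₂ (e ⁻¹' K) hMc hconv' hsym' θ h0 h1
  have hfr : Module.finrank ℝ Λ' ≤ k := by
    have := Submodule.finrank_add_eq_of_isCompl hc
    omega
  have hθ : ENNReal.ofReal (θ ^ k) ≤ ENNReal.ofReal (θ ^ Module.finrank ℝ Λ') :=
    ENNReal.ofReal_le_ofReal (pow_le_pow_of_le_one h0.le h1.le hfr)
  have hSc : IsCompact {w | w ∈ K ∧ ∃ z ∈ K, P w = θ • P z} := by
    have e1 : {w | w ∈ K ∧ ∃ z ∈ K, P w = θ • P z} = K ∩ P ⁻¹' ((fun z => θ • P z) '' K) := by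
      ext w
      constructor
      · rintro ⟨hw, z, hz, h⟩
        exact ⟨hw, z, hz, h.symm⟩
      · rintro ⟨hw, z, hz, h⟩
        exact ⟨hw, z, hz, h.symm⟩
    rw [e1]
    apply hKc.inter_right
    apply IsClosed.preimage P.continuous
    exact (hKc.image (by fun_prop)).isClosed
  have hK1 : μ K = c * (ν₁.prod ν₂) (e ⁻¹' K) := by
    rw [hc', Measure.smul_apply, Measure.map_apply hem hKc.measurableSet]
    rfl
  have hS1 : μ {w | w ∈ K ∧ ∃ z ∈ K, P w = θ • P z} =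
      c * (ν₁.prod ν₂) (e ⁻¹' {w | w ∈ K ∧ ∃ z ∈ K, P w = θ • P z}) := by
    rw [hc', Measure.smul_apply, Measure.map_apply hem hSc.measurableSet]
    rfl
  rw [hK1, hS1]
  have hsub : {p : Λ' × Λ | p ∈ e ⁻¹' K ∧ ∃ q ∈ e ⁻¹' K, p.1 = θ • q.1} ⊆
      e ⁻¹' {w | w ∈ K ∧ ∃ z ∈ K, P w = θ • P z} := by
    rintro p ⟨hp, q, hq, hpq⟩
    refine ⟨hp, e q, hq, ?_⟩
    have hker : ∀ r : Λ' × Λ, P (e r) = P (r.1 : V) := by
      intro r
      rw [he, map_add]
      have : P (r.2 : V) = 0 := r.2.2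
      rw [this, add_zero]
    rw [hker, hker, hpq, Submodule.coe_smul, map_smul]
  calc ENNReal.ofReal (θ ^ k) * (c * (ν₁.prod ν₂) (e ⁻¹' K))
      = c * (ENNReal.ofReal (θ ^ k) * (ν₁.prod ν₂) (e ⁻¹' K)) := by ring
    _ ≤ c * (ENNReal.ofReal (θ ^ Module.finrank ℝ Λ') * (ν₁.prod ν₂) (e ⁻¹' K)) := by
        gcongr
    _ ≤ c * (ν₁.prod ν₂) (e ⁻¹' {w | w ∈ K ∧ ∃ z ∈ K, P w = θ • P z}) := by
        gcongr
        exact h.trans (measure_mono hsub)

end Pool.Agent.TH84.NC
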