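import Pool.Agent.TH84.HC.Univ
import Pool.Agent.TH84.NC.Fiber

/-!
# Directions which are good for all points with small normal cones
-/

set_option autoImplicit false

open MeasureTheory Set ProbabilityTheory
open scoped ENNReal RealInnerProductSpace

namespace Pool.Agent.TH84.NC

open Pool.Agent.PZ871 (E)
open Pool.Agent.TH84.HC (coord_bound norm_close card_idx select)

theorem sum_single {d : ℕ} (w : E d) : w = ∑ j, w j • (EuclideanSpace.single j (1:ℝ) : E d) := by
  have h := (EuclideanSpace.basisFun (Fin d) ℝ).sum_repr w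
  simpa using h.symm

theorem map_bound {d : ℕ} (Q : E d →L[ℝ] E d) (δ : ℝ) (hQ : ∀ j, ‖Q (EuclideanSpace.single j 1)‖ ≤ δ)
    (w : E d) (hw : ∀ j, |w j| ≤ 1) : ‖Q w‖ ≤ d * δ := by
  conv_lhs => rw [sum_single w]
  rw [map_sum]
  refine (norm_sum_le _ _).trans ?_
  calc ∑ j, ‖Q (w j • (EuclideanSpace.single j (1:ℝ) : E d))‖ ≤ ∑ _j : Fin d, δ := by
        refine Finset.sum_le_sum fun j _ => ?_
        rw [map_smul, norm_smul, Real.norm_eq_abs]
        calc |w j| * ‖Q (EuclideanSpace.single j 1)‖ ≤ 1 * ‖Q (EuclideanSpace.single j 1)‖ :=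
              mul_le_mul_of_nonneg_right (hw j) (norm_nonneg _)
          _ ≤ δ := by rw [one_mul]; exact hQ j
    _ = d * δ := by simp [Finset.sum_const]

theorem fun_bound {d : ℕ} (f : E d →L[ℝ] ℝ) (H : ℝ)
    (hf : ∀ j, |f (EuclideanSpace.single j 1)| ≤ H) (u : E d) : |f u| ≤ d * H * ‖u‖ := by
  conv_lhs => rw [sum_single u]
  rw [map_sum]
  refine (Finset.abs_sum_le_sum_abs _ _).trans ?_
  calc ∑ j, |f (u j • (EuclideanSpace.single j (1:ℝ) : E d))| ≤ ∑ _j : Fin d, ‖u‖ * H := by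
        refine Finset.sum_le_sum fun j _ => ?_
        rw [map_smul, smul_eq_mul, abs_mul]
        exact mul_le_mul (coord_bound u j) (hf j) (abs_nonneg _) (norm_nonneg _)
    _ = d * H * ‖u‖ := by simp [Finset.sum_const]; ring

/-- the part of `K` over the `θ`-homothet of the projection -/
def Kt {d : ℕ} (K : Set (E d)) (θ : ℝ) (P : E d →L[ℝ] E d) : Set (E d) :=
  {w | w ∈ K ∧ ∃ z ∈ K, P w = θ • P z}

/-- the event -/
def Sv {d : ℕ} (K : Set (E d)) (θ τ : ℝ) (P : E d →L[ℝ] E d) (x : E d) : Set (E d) :=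
  {v | (1 + τ) • v + τ • x ∈ Kt K θ P}

theorem Kt_compact {d : ℕ} {K : Set (E d)} (hKc : IsCompact K) (θ : ℝ) (P : E d →L[ℝ] E d) :
    IsCompact (Kt K θ P) := by
  have e1 : Kt K θ P = K ∩ P ⁻¹' ((fun z => θ • P z) '' K) := by
    ext w
    constructor
    · rintro ⟨hw, z, hz, h⟩
      exact ⟨hw, z, hz, h.symm⟩
    · rintro ⟨hw, z, hz, h⟩
      exact ⟨hw, z, hz, h.symm⟩
  rw [e1]
  apply hKc.inter_right
  apply IsClosed.preimage P.continuous
  exact (hKc.image (by fun_prop)).isClosed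

theorem Sv_meas {d : ℕ} {K : Set (E d)} (hKc : IsCompact K) (θ τ : ℝ) (P : E d →L[ℝ] E d)
    (x : E d) : MeasurableSet (Sv K θ τ P x) :=
  ((Kt_compact hKc θ P).isClosed.preimage (by fun_prop :
    Continuous fun v : E d => (1 + τ) • v + τ • x)).measurableSet

theorem Sv_prob {d k : ℕ} {K : Set (E d)} (hKc : IsCompact K) (hconv : Convex ℝ K)
    (hsym : ∀ x ∈ K, -x ∈ K) (hi : (interior K).Nonempty) (θ τ : ℝ) (h0 : 0 < θ) (h1 : θ < 1)
    (hτ : 0 < τ) (P : E d →L[ℝ] E d)
    (hP : d ≤ Module.finrank ℝ (LinearMap.ker (P : E d →ₗ[ℝ] E d)) + k) (x : E d) (hx : x ∈ K) :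
    θ ^ k / (1 + τ) ^ d ≤ (ProbabilityTheory.cond (volume : Measure (E d)) K).real (Sv K θ τ P x) := by
  have hfr : Module.finrank ℝ (E d) = d := by simp
  have hfib := fiber_E (volume : Measure (E d)) K hKc hconv hsym P k (by rw [hfr]; exact hP) θ h0 h1
  have hK0 : volume K ≠ 0 :=
    (lt_of_lt_of_le (isOpen_interior.measure_pos volume hi) (measure_mono interior_subset)).ne'
  have hKt : volume K ≠ ∞ := hKc.measure_ne_top
  have hsub : Sv K θ τ P x ⊆ K := by
    intro v hv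
    have hw : (1 + τ) • v + τ • x ∈ K := hv.1
    have h2 := hconv hw (hsym x hx) (show 0 ≤ 1 / (1 + τ) by positivity)
      (show 0 ≤ τ / (1 + τ) by positivity) (by field_simp)
    have e : (1 / (1 + τ)) • ((1 + τ) • v + τ • x) + (τ / (1 + τ)) • (-x) = v := by
      rw [smul_add, smul_smul, smul_smul, smul_neg]
      have e1 : 1 / (1 + τ) * (1 + τ) = 1 := by field_simp
      have e2 : 1 / (1 + τ) * τ = τ / (1 + τ) := by ring
      rw [e1, e2, one_smul]
      abel
    rwa [e] at h2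
  have hvol : volume (Sv K θ τ P x) = ENNReal.ofReal (((1 + τ) ^ d)⁻¹) * volume (Kt K θ P) := by
    have e1 : Sv K θ τ P x = (fun v : E d => (1 + τ) • v) ⁻¹'
        ((fun w : E d => w + τ • x) ⁻¹' (Kt K θ P)) := rfl
    rw [e1, Measure.addHaar_preimage_smul volume (by positivity : (1 + τ) ≠ 0), hfr,
      measure_preimage_add_right, abs_of_pos (by positivity)]
  have h3 : ENNReal.ofReal (θ ^ k / (1 + τ) ^ d) * volume K ≤ volume (Sv K θ τ P x) := by
    rw [hvol]
    have e2 : ENNReal.ofReal (θ ^ k / (1 + τ) ^ d) =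
        ENNReal.ofReal (((1 + τ) ^ d)⁻¹) * ENNReal.ofReal (θ ^ k) := by
      rw [← ENNReal.ofReal_mul (by positivity)]
      congr 1
      rw [div_eq_mul_inv, mul_comm]
    rw [e2, mul_assoc]
    gcongr
    exact hfib
  have h4 : ENNReal.ofReal (θ ^ k / (1 + τ) ^ d) ≤
      ProbabilityTheory.cond (volume : Measure (E d)) K (Sv K θ τ P x) := by
    rw [ProbabilityTheory.cond_apply hKc.measurableSet, inter_eq_self_of_subset_right hsub,
      ← ENNReal.div_eq_inv_mul, ENNReal.le_div_iff_mul_le (Or.inl hK0) (Or.inl hKt)]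
    exact h3
  have h5 := ENNReal.toReal_mono (measure_ne_top _ _) h4
  rwa [ENNReal.toReal_ofReal (by positivity)] at h5

/-- the tuple of a map and a point -/
noncomputable def tup {d : ℕ} (P : E d →L[ℝ] E d) (x : E d) : Fin (d + 1) → E d :=
  Fin.snoc (α := fun _ => E d) (fun j => P (EuclideanSpace.single j 1)) x

theorem tup_cast {d : ℕ} (P : E d →L[ℝ] E d) (x : E d) (j : Fin d) :
    tup P x j.castSucc = P (EuclideanSpace.single j 1) := by
  unfold tup
  rw [Fin.snoc_castSucc]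

theorem tup_last {d : ℕ} (P : E d →L[ℝ] E d) (x : E d) : tup P x (Fin.last d) = x := by
  unfold tup
  rw [Fin.snoc_last]

theorem tup_norm {d : ℕ} (hd : 1 ≤ d) (P : E d →L[ℝ] E d) (hP : ∀ u, ‖P u‖ ≤ ‖u‖) (x : E d)
    (hx : ∀ j, |x j| ≤ 1) (i : Fin (d + 1)) : ‖tup P x i‖ ≤ d := by
  have hd1 : (1:ℝ) ≤ d := by exact_mod_cast hd
  refine Fin.lastCases ?_ (fun j => ?_) i
  · rw [tup_last]
    have h := norm_close x 0 1 zero_le_one (fun j => by simpa using hx j)
    rw [sub_zero, one_mul] at h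
    refine h.trans ?_
    rw [Real.sqrt_le_left (by linarith)]
    nlinarith
  · rw [tup_cast]
    refine (hP _).trans ?_
    simpa using hd1

/-- **a finite set of directions good for all points and all subspaces** -/
theorem core (d k κ : ℕ) (hd : 1 ≤ d) (hκ : 1 ≤ κ) {K : Set (E d)} (hKc : IsCompact K)
    (hconv : Convex ℝ K) (hsym : ∀ x ∈ K, -x ∈ K) (hi : (interior K).Nonempty)
    (hfr : ∀ j, (EuclideanSpace.single j 1 : E d) ∈ K) (hbox : ∀ w ∈ K, ∀ j, |w j| ≤ 1)
    (θ : ℝ) (h0 : 0 < θ) (h1 : θ < 1) (hκθ : κ * θ ≤ 1) :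
    ∃ U : Finset (E d), (U.card : ℝ) ≤ 1 + (d * (d + 1)) * Real.log (10 * κ * d ^ 5 + 1) *
        ((1 + (κ * θ + 1 / d)) ^ d / θ ^ k) ∧
      ∀ x ∈ K, ∀ Λ : Submodule ℝ (E d), d ≤ Module.finrank ℝ Λ + k → ∃ v ∈ U,
        ∀ f : E d →L[ℝ] ℝ, (∀ z ∈ K, f z ≤ κ * f x) → (∀ u ∈ Λ, f u = 0) → f ≠ 0 → f v < 0 := by
  classical
  have hd1 : (1:ℝ) ≤ d := by exact_mod_cast hd
  have hd0 : (0:ℝ) < d := by linarith
  have hκ1 : (1:ℝ) ≤ κ := by exact_mod_cast hκ
  have hκ0 : (0:ℝ) < κ := by linarith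
  set τ : ℝ := κ * θ + 1 / d with hτ
  have hτ0 : 0 < τ := by rw [hτ]; positivity
  have hτ2 : τ ≤ 2 := by
    have : 1 / (d:ℝ) ≤ 1 := by rw [div_le_one hd0]; exact hd1
    rw [hτ]; linarith
  set L : ℕ := 5 * κ * d ^ 4 with hL
  have hLr : (L:ℝ) = 5 * κ * (d:ℝ) ^ 4 := by rw [hL]; push_cast; ring
  have hL0 : (0:ℝ) < L := by rw [hLr]; positivity
  set N : ℕ := L * d with hN
  have hNr : (N:ℝ) = L * d := by rw [hN]; push_cast; ring
  have hKprob : IsProbabilityMeasure (ProbabilityTheory.cond (volume : Measure (E d)) K) := by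
    apply ProbabilityTheory.cond_isProbabilityMeasure_of_finite
    · exact (lt_of_lt_of_le (isOpen_interior.measure_pos volume hi)
        (measure_mono interior_subset)).ne'
    · exact hKc.measure_ne_top
  -- the codes
  let Q : (Fin (d + 1) → Fin d → ↥(Finset.Icc (-(N:ℤ)) (N:ℤ))) → (E d →L[ℝ] E d) × E d → Prop :=
    fun c q => (d ≤ Module.finrank ℝ (LinearMap.ker (q.1 : E d →ₗ[ℝ] E d)) + k) ∧ q.2 ∈ K ∧
      ∀ i j, ⌊(L:ℝ) * tup q.1 q.2 i j⌋ = (c i j : ℤ)
  let C : (Fin (d + 1) → Fin d → ↥(Finset.Icc (-(N:ℤ)) (N:ℤ))) → Set (E d) := fun c =>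
    if h : ∃ q, Q c q then Sv K θ τ h.choose.1 h.choose.2 else Set.univ
  have hCm : ∀ c, MeasurableSet (C c) := by
    intro c
    by_cases h : ∃ q, Q c q
    · simp only [C, dif_pos h]
      exact Sv_meas hKc _ _ _ _
    · simp only [C, dif_neg h]
      exact MeasurableSet.univ
  set p0 : ℝ := θ ^ k / (1 + τ) ^ d with hp0
  have hp0' : 0 < p0 := by rw [hp0]; positivity
  have hp1 : p0 ≤ 1 := by
    rw [hp0, div_le_one (by positivity)]
    calc θ ^ k ≤ 1 := pow_le_one₀ h0.le h1.le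
      _ ≤ (1 + τ) ^ d := one_le_pow₀ (by linarith)
  have hCp : ∀ c, p0 ≤ (ProbabilityTheory.cond (volume : Measure (E d)) K).real (C c) := by
    intro c
    by_cases h : ∃ q, Q c q
    · simp only [C, dif_pos h]
      exact Sv_prob hKc hconv hsym hi θ τ h0 h1 hτ0 _ h.choose_spec.1 _ h.choose_spec.2.1
    · simp only [C, dif_neg h]
      rw [probReal_univ]
      exact hp1
  have hFge : (1:ℝ) ≤ (2 * N + 1 : ℝ) ^ (d * (d + 1)) := by
    apply one_le_pow₀
    have : (0:ℝ) ≤ N := Nat.cast_nonneg N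
    linarith
  obtain ⟨U, hU, hsel⟩ := select (ProbabilityTheory.cond (volume : Measure (E d)) K) C hCm p0
    ((2 * N + 1 : ℝ) ^ (d * (d + 1))) hp0' hCp hp1 hFge (card_idx (d + 1) d N).le
  refine ⟨U, hU.trans ?_, ?_⟩
  · rw [Real.log_pow]
    have e1 : (2 * (N:ℝ) + 1) = 10 * κ * d ^ 5 + 1 := by
      rw [hNr, hLr]; ring
    rw [e1, hp0]
    have e2 : ((d * (d + 1) : ℕ) : ℝ) * Real.log (10 * κ * d ^ 5 + 1) / (θ ^ k / (1 + τ) ^ d) =
        (d * (d + 1)) * Real.log (10 * κ * d ^ 5 + 1) * ((1 + τ) ^ d / θ ^ k) := by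
      push_cast
      rw [div_div_eq_mul_div, mul_div_assoc]
    rw [e2]
  · intro x hx Λ hΛ
    set P : E d →L[ℝ] E d := (Λᗮ).starProjection with hPd
    have hPn : ∀ u, ‖P u‖ ≤ ‖u‖ := fun u => Submodule.norm_starProjection_apply_le _ u
    have hPk : ∀ u, P u = 0 ↔ u ∈ Λ := by
      intro u
      rw [hPd, Submodule.starProjection_apply_eq_zero_iff, Submodule.orthogonal_orthogonal]
    have hPΛ : LinearMap.ker (P : E d →ₗ[ℝ] E d) = Λ := by
      ext u
      rw [LinearMap.mem_ker]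
      exact hPk u
    have hPP : ∀ u, u - P u ∈ Λ := by
      intro u
      have h := Submodule.sub_starProjection_mem_orthogonal (K := Λᗮ) u
      rwa [Submodule.orthogonal_orthogonal] at h
    have hxb := hbox x hx
    have hcode : ∀ i j, ⌊(L:ℝ) * tup P x i j⌋ ∈ Finset.Icc (-(N:ℤ)) (N:ℤ) := by
      intro i j
      have h2 := (coord_bound (tup P x i) j).trans (tup_norm hd P hPn x hxb i)
      rw [abs_le] at h2
      rw [Finset.mem_Icc]
      constructor
      · rw [Int.le_floor]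
        push_cast
        rw [hNr]
        nlinarith [h2.1]
      · have h3 : (⌊(L:ℝ) * tup P x i j⌋ : ℝ) ≤ (N:ℝ) :=
          (Int.floor_le _).trans (by rw [hNr]; nlinarith [h2.2])
        exact_mod_cast h3
    let c : Fin (d + 1) → Fin d → ↥(Finset.Icc (-(N:ℤ)) (N:ℤ)) := fun i j => ⟨_, hcode i j⟩
    have hc : ∃ q, Q c q := ⟨(P, x), by rw [hPΛ]; exact hΛ, hx, fun i j => rfl⟩
    obtain ⟨v, hv, hvC⟩ := hsel c
    simp only [C, dif_pos hc] at hvC
    obtain ⟨-, hx', hcl⟩ := hc.choose_spec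
    set P' : E d →L[ℝ] E d := hc.choose.1 with hP'
    set x' : E d := hc.choose.2 with hx'd
    refine ⟨v, hv, fun f hf hfΛ hf0 => ?_⟩
    obtain ⟨hw, z, hz, hwz⟩ := hvC
    set w : E d := (1 + τ) • v + τ • x' with hwd
    -- closeness
    have hclose : ∀ i, ‖tup P x i - tup P' x' i‖ ≤ 1 / L * Real.sqrt d := by
      intro i
      refine norm_close _ _ _ (by positivity) fun j => ?_
      have e : ⌊(L:ℝ) * tup P' x' i j⌋ = ⌊(L:ℝ) * tup P x i j⌋ := hcl i j
      have h4 := Int.abs_sub_lt_one_of_floor_eq_floor e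
      rw [← mul_sub, abs_mul, abs_of_pos hL0] at h4
      rw [abs_sub_comm, le_div_iff₀ hL0]
      linarith
    have hsq : Real.sqrt d ≤ d := by
      rw [Real.sqrt_le_left (by linarith)]
      nlinarith
    set δ : ℝ := d / L with hδ
    have hδ0 : 0 < δ := by rw [hδ]; positivity
    have hclose' : ∀ i, ‖tup P x i - tup P' x' i‖ ≤ δ := by
      intro i
      refine (hclose i).trans ?_
      rw [hδ, one_div, inv_mul_eq_div]
      exact div_le_div_of_nonneg_right hsq hL0.le
    have hPP' : ∀ u : E d, (∀ j, |u j| ≤ 1) → ‖P u - P' u‖ ≤ d * δ := by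
      intro u hu
      have h2 := map_bound (P - P') δ (fun j => by
        have h3 := hclose' j.castSucc
        rw [tup_cast, tup_cast] at h3
        simpa using h3) u hu
      simpa using h2
    have hxx' : ‖x - x'‖ ≤ δ := by
      have h3 := hclose' (Fin.last d)
      rwa [tup_last, tup_last] at h3
    -- the functional
    set H : ℝ := f x with hH
    have hfe : ∀ j, |f (EuclideanSpace.single j 1)| ≤ κ * H := by
      intro j
      rw [abs_le]
      have h2 := hf _ (hfr j)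
      have h3 := hf _ (hsym _ (hfr j))
      rw [map_neg] at h3
      constructor <;> linarith
    have hH0 : 0 < H := by
      by_contra hcon
      push Not at hcon
      apply hf0
      ext u
      have h2 := fun_bound f 0 (fun j => (hfe j).trans (mul_nonpos_of_nonneg_of_nonpos hκ0.le hcon)) u
      rw [mul_zero, zero_mul] at h2
      simpa using abs_nonpos_iff.1 h2
    have hfb := fun_bound f (κ * H) hfe
    have hfP : ∀ u, f (P u) = f u := by
      intro u
      have h2 := hfΛ _ (hPP u)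
      rw [map_sub] at h2
      linarith
    have hbd : ∀ u : E d, (∀ j, |u j| ≤ 1) → |f (P u - P' u)| ≤ d * (κ * H) * (d * δ) := by
      intro u hu
      exact (hfb _).trans (mul_le_mul_of_nonneg_left (hPP' u hu) (by positivity))
    have h2 := hbd w (hbox w hw)
    have h3 := hbd z (hbox z hz)
    have h4 := hfb (x - x')
    have h5 : |f (x - x')| ≤ d * (κ * H) * δ :=
      h4.trans (mul_le_mul_of_nonneg_left hxx' (by positivity))
    rw [abs_le] at h2 h3 h5
    rw [map_sub, hfP] at h2 h3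
    rw [map_sub] at h5
    have h6 : f (P' w) = θ * f (P' z) := by
      rw [hwz, map_smul, smul_eq_mul]
    have h7 : f z ≤ κ * H := hf z hz
    have h8 : f w = (1 + τ) * f v + τ * f x' := by
      rw [hwd, map_add, map_smul, map_smul, smul_eq_mul, smul_eq_mul]
    -- collect
    have h9 : f w ≤ θ * (κ * H) + 2 * (d * (κ * H) * (d * δ)) := by
      have a1 : f w ≤ f (P' w) + d * (κ * H) * (d * δ) := by linarith [h2.2]
      have a2 : f (P' z) ≤ κ * H + d * (κ * H) * (d * δ) := by linarith [h3.1]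
      have a3 : θ * f (P' z) ≤ θ * (κ * H + d * (κ * H) * (d * δ)) :=
        mul_le_mul_of_nonneg_left a2 h0.le
      have a4 : 0 ≤ d * (κ * H) * (d * δ) := by positivity
      have a5 : θ * (d * (κ * H) * (d * δ)) ≤ 1 * (d * (κ * H) * (d * δ)) :=
        mul_le_mul_of_nonneg_right h1.le a4
      rw [h6] at a1
      linarith
    have h10 : τ * (H - d * (κ * H) * δ) ≤ τ * f x' := by
      apply mul_le_mul_of_nonneg_left _ hτ0.le
      linarith [h5.2]
    have h11 : (1 + τ) * f v ≤ H * (-(1 / d) + κ * (2 * d ^ 2 + 2 * d) * δ) := by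
      have a1 : τ * (d * (κ * H) * δ) ≤ 2 * (d * (κ * H) * δ) :=
        mul_le_mul_of_nonneg_right hτ2 (by positivity)
      have a2 : τ * H = θ * (κ * H) + 1 / d * H := by rw [hτ]; ring
      have e : H * (-(1 / d) + κ * (2 * d ^ 2 + 2 * d) * δ) =
          -(1 / d * H) + 2 * (d * (κ * H) * (d * δ)) + 2 * (d * (κ * H) * δ) := by ring
      rw [e]
      have a3 : τ * (H - d * (κ * H) * δ) = τ * H - τ * (d * (κ * H) * δ) := by ring
      linarith
    have h12 : -(1 / (d:ℝ)) + κ * (2 * d ^ 2 + 2 * d) * δ < 0 := by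
      have a1 : κ * (2 * (d:ℝ) ^ 2 + 2 * d) * δ ≤ 4 / 5 * (1 / d) := by
        rw [hδ, hLr]
        have e : κ * (2 * (d:ℝ) ^ 2 + 2 * d) * (d / (5 * κ * d ^ 4)) = (2 * d + 2) / (5 * d ^ 2) := by
          field_simp
        rw [e, div_le_iff₀ (by positivity)]
        have e2 : 4 / 5 * (1 / (d:ℝ)) * (5 * d ^ 2) = 4 * d := by field_simp
        rw [e2]
        linarith
      have a2 : 0 < 1 / (d:ℝ) := by positivity
      linarith
    have h13 : (1 + τ) * f v < 0 :=
      lt_of_le_of_lt h11 (mul_neg_of_pos_of_neg hH0 h12)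
    by_contra hcon
    push Not at hcon
    have := mul_nonneg (by linarith : 0 ≤ 1 + τ) hcon
    linarith

end Pool.Agent.TH84.NC
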