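import Mathlib
import Pool.Agent.PZ871.Defs

/-!
# A position of a symmetric body: inscribed parallelepiped frame of maximal determinant
-/

set_option autoImplicit false

open MeasureTheory Set
open scoped ENNReal

namespace Pool.Agent.TH84.NC

open Pool.Agent.PZ871 (E)

theorem position {d : ℕ} (K : Set (E d)) (hc : IsCompact K) (r : ℝ) (hr : 0 < r)
    (hball : ∀ x : E d, ‖x‖ ≤ r → x ∈ K) :
    ∃ A : E d ≃L[ℝ] E d, (∀ j, A.symm (EuclideanSpace.single j 1) ∈ K) ∧
      ∀ w ∈ K, ∀ j, |(A w) j| ≤ 1 := by
  classical
  let b : Module.Basis (Fin d) ℝ (E d) := (EuclideanSpace.basisFun (Fin d) ℝ).toBasis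
  have hdet : ∀ u : Fin d → E d, b.det u = Matrix.det (Matrix.of fun i j => (u j) i) := by
    intro u
    rw [Module.Basis.det_apply]
    congr 1
  have hcont : Continuous fun u : Fin d → E d => |b.det u| := by
    simp_rw [hdet]
    apply Continuous.abs
    apply Continuous.matrix_det
    refine continuous_pi fun i => continuous_pi fun j => ?_
    show Continuous fun u : Fin d → E d => (u j) i
    fun_prop
  have hCc : IsCompact (Set.univ.pi fun _ : Fin d => K) := isCompact_univ_pi fun _ => hc
  have hmem : (fun j : Fin d => (EuclideanSpace.single j r : E d)) ∈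
      (Set.univ.pi fun _ : Fin d => K) := by
    intro j _
    apply hball
    simp [abs_of_pos hr]
  obtain ⟨u, huC, humax⟩ := hCc.exists_isMaxOn ⟨_, hmem⟩ hcont.continuousOn
  have hmax : ∀ v ∈ (Set.univ.pi fun _ : Fin d => K), |b.det v| ≤ |b.det u| := fun v hv => humax hv
  have hpos : 0 < |b.det u| := by
    refine lt_of_lt_of_le ?_ (hmax _ hmem)
    rw [hdet]
    have e : (Matrix.of fun i j => ((EuclideanSpace.single j r : E d)) i) =
        Matrix.diagonal (fun _ : Fin d => r) := by
      ext i j
      simp [Matrix.diagonal_apply, Pi.single_apply]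
    rw [e, Matrix.det_diagonal]
    simp [abs_of_pos hr, hr]
  have hne : b.det u ≠ 0 := abs_pos.1 hpos
  obtain ⟨hli, hsp⟩ := b.is_basis_iff_det.2 (isUnit_iff_ne_zero.2 hne)
  let B : Module.Basis (Fin d) ℝ (E d) := Module.Basis.mk hli hsp.ge
  have hco : ∀ w ∈ K, ∀ j, |B.coord j w| ≤ 1 := by
    intro w hw j
    have h1 := congrArg (fun f => f w) (b.det_smul_mk_coord_eq_det_update hli hsp.ge j)
    have h2 : b.det u * B.coord j w = b.det (Function.update u j w) := h1
    have h3 : Function.update u j w ∈ (Set.univ.pi fun _ : Fin d => K) := by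
      intro i _
      by_cases hij : i = j
      · subst hij; simpa using hw
      · rw [Function.update_of_ne hij]; exact huC i (mem_univ i)
    have h4 := hmax _ h3
    rw [← h2, abs_mul] at h4
    by_contra hcon
    push Not at hcon
    nlinarith
  let A₀ : E d ≃ₗ[ℝ] E d := B.equivFun.trans (WithLp.linearEquiv 2 ℝ (Fin d → ℝ)).symm
  let A : E d ≃L[ℝ] E d := A₀.toContinuousLinearEquiv
  have hA : ∀ w j, (A w) j = B.coord j w := by
    intro w j
    rfl
  refine ⟨A, ?_, ?_⟩
  · intro j
    have h1 : A (u j) = EuclideanSpace.single j 1 := by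
      ext i
      rw [hA]
      have h2 : u j = B j := by
        simp [B]
      rw [h2, Module.Basis.coord_apply, Module.Basis.repr_self]
      simp [Finsupp.single_apply, Pi.single_apply, eq_comm]
    rw [← h1, ContinuousLinearEquiv.symm_apply_apply]
    exact huC j (mem_univ j)
  · intro w hw j
    rw [hA]
    exact hco w hw j

end Pool.Agent.TH84.NC
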