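import Pool.Agent.TH84.HC.Main
import Pool.Agent.TH84.NC.Net
import Pool.Agent.TH84.NC.Pos

/-!
# Covering symmetric bodies with small normal cones
-/

set_option autoImplicit false

open MeasureTheory Set ProbabilityTheory
open scoped ENNReal RealInnerProductSpace

namespace Pool.Agent.TH84.NC

open Pool.Agent.PZ871 (E)
open Pool.Agent.TH84.HC

/-- the supporting functionals of `K` at `x` vanish on a common subspace of codimension at most `k`:
the normal cone of `K` at `x` has dimension at most `k` -/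
def NormalDim {d : ℕ} (K : Set (E d)) (k : ℕ) (x : E d) : Prop :=
  ∃ Λ : Submodule ℝ (E d), d ≤ Module.finrank ℝ Λ + k ∧
    ∀ f : E d →L[ℝ] ℝ, (∀ z ∈ K, f z ≤ f x) → ∀ v ∈ Λ, f v = 0

theorem zero_int {d : ℕ} {K : Set (E d)} (hK : IsBody K) (hsym : ∀ x ∈ K, -x ∈ K) :
    (0 : E d) ∈ interior K := by
  obtain ⟨a, ha⟩ := hK.2.2
  have hneg : -a ∈ interior K := by
    have h1 : IsOpen ((fun x : E d => -x) ⁻¹' interior K) := isOpen_interior.preimage continuous_neg
    have h2 : (fun x : E d => -x) ⁻¹' interior K ⊆ K := by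
      intro x hx
      have := hsym _ (interior_subset hx)
      simpa using this
    have h3 : (fun x : E d => -x) ⁻¹' interior K ⊆ interior K := interior_maximal h2 h1
    apply h3
    show - -a ∈ interior K
    rwa [neg_neg]
  have := hK.1.interior ha hneg (show (0:ℝ) ≤ 1/2 by norm_num) (show (0:ℝ) ≤ 1/2 by norm_num)
    (by norm_num)
  simpa using this

/-- directions illuminating all points with small normal cones: general scheme -/
theorem illum_gen (d k κ : ℕ) (hd : 1 ≤ d) (hκ : 1 ≤ κ) (K : Set (E d)) (hK : IsBody K)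
    (D : Set (E d)) (hDc : IsCompact D) (hDconv : Convex ℝ D) (hDsym : ∀ x ∈ D, -x ∈ D)
    (hDi : (interior D).Nonempty) (A : E d ≃L[ℝ] E d)
    (hA1 : ∀ j, A.symm (EuclideanSpace.single j 1) ∈ D) (hA2 : ∀ w ∈ D, ∀ j, |(A w) j| ≤ 1)
    (p : E d) (hp : ∀ x ∈ K, x - p ∈ D)
    (hfun : ∀ x ∈ K, ∀ f : E d →L[ℝ] ℝ, (∀ z ∈ K, f z ≤ f x) → ∀ z ∈ D, f z ≤ κ * f (x - p))
    (θ : ℝ) (h0 : 0 < θ) (h1 : θ < 1) (hκθ : κ * θ ≤ 1) :
    ∃ U : Finset (E d), (U.card : ℝ) ≤ 1 + (d * (d + 1)) * Real.log (10 * κ * d ^ 5 + 1) *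
        ((1 + (κ * θ + 1 / d)) ^ d / θ ^ k) ∧
      ∀ x ∈ K, NormalDim K k x → ∃ v ∈ U, ∃ t : ℝ, 0 < t ∧ x + t • v ∈ interior K := by
  classical
  have hc' : IsCompact (A '' D) := hDc.image A.continuous
  have hconv' : Convex ℝ (A '' D) := hDconv.linear_image (A : E d →ₗ[ℝ] E d)
  have hsym' : ∀ x ∈ A '' D, -x ∈ A '' D := by
    rintro _ ⟨x, hx, rfl⟩
    exact ⟨-x, hDsym x hx, by rw [map_neg]⟩
  have hi' : (interior (A '' D)).Nonempty := by
    obtain ⟨a, ha⟩ := hDi
    have h2 : A.toHomeomorph '' interior D = interior (A.toHomeomorph '' D) :=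
      A.toHomeomorph.image_interior D
    have h3 : A a ∈ interior (A.toHomeomorph '' D) := by
      rw [← h2]
      exact ⟨a, ha, rfl⟩
    exact ⟨A a, h3⟩
  have hfr' : ∀ j, (EuclideanSpace.single j 1 : E d) ∈ A '' D := fun j =>
    ⟨_, hA1 j, by rw [ContinuousLinearEquiv.apply_symm_apply]⟩
  have hbox' : ∀ w ∈ A '' D, ∀ j, |w j| ≤ 1 := by
    rintro _ ⟨w, hw, rfl⟩ j
    exact hA2 w hw j
  obtain ⟨U, hU, h⟩ := core d k κ hd hκ hc' hconv' hsym' hi' hfr' hbox' θ h0 h1 hκθ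
  refine ⟨U.image fun v => A.symm v, ?_, ?_⟩
  · refine le_trans ?_ hU
    exact_mod_cast Finset.card_image_le
  · rintro x hx ⟨Λ, hΛ, hN⟩
    have hfin : Module.finrank ℝ (Λ.map (A : E d →ₗ[ℝ] E d)) = Module.finrank ℝ Λ :=
      LinearEquiv.finrank_map_eq A.toLinearEquiv Λ
    obtain ⟨v, hv, hvf⟩ := h (A (x - p)) ⟨x - p, hp x hx, rfl⟩ (Λ.map (A : E d →ₗ[ℝ] E d))
      (by rw [hfin]; exact hΛ)
    refine ⟨A.symm v, Finset.mem_image_of_mem _ hv, ?_⟩
    by_contra hcon
    push Not at hcon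
    obtain ⟨f, hfi, hfz, hfv⟩ := sep_ray hK.1 hK.2.2 hx (A.symm v) hcon
    have h3 := hvf (f.comp (A.symm : E d →L[ℝ] E d)) ?_ ?_ ?_
    · have h4 : f (A.symm v) < 0 := h3
      linarith
    · rintro _ ⟨z, hz, rfl⟩
      show f (A.symm (A z)) ≤ κ * f (A.symm (A (x - p)))
      rw [ContinuousLinearEquiv.symm_apply_apply, ContinuousLinearEquiv.symm_apply_apply]
      exact hfun x hx f hfz z hz
    · rintro _ ⟨u, hu, rfl⟩
      show f (A.symm (A u)) = 0
      rw [ContinuousLinearEquiv.symm_apply_apply]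
      exact hN f hfz u hu
    · intro h5
      obtain ⟨a, ha⟩ := hK.2.2
      have h6 : f = 0 := by
        ext u
        have := congrArg (fun g : E d →L[ℝ] ℝ => g (A u)) h5
        have h7 : f (A.symm (A u)) = 0 := this
        rw [ContinuousLinearEquiv.symm_apply_apply] at h7
        simpa using h7
      have h8 := hfi a ha
      rw [h6] at h8
      simp at h8

/-- symmetric bodies -/
theorem illum_sym (d k : ℕ) (hd : 1 ≤ d) (K : Set (E d)) (hK : IsBody K)
    (hsym : ∀ x ∈ K, -x ∈ K) (θ : ℝ) (h0 : 0 < θ) (h1 : θ < 1) :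
    ∃ U : Finset (E d), (U.card : ℝ) ≤ 1 + (d * (d + 1)) * Real.log (10 * d ^ 5 + 1) *
        ((1 + (θ + 1 / d)) ^ d / θ ^ k) ∧
      ∀ x ∈ K, NormalDim K k x → ∃ v ∈ U, ∃ t : ℝ, 0 < t ∧ x + t • v ∈ interior K := by
  obtain ⟨ε, hε, hball⟩ := Metric.isOpen_iff.1 isOpen_interior _ (zero_int hK hsym)
  obtain ⟨A, hA1, hA2⟩ := position K hK.2.1 (ε / 2) (by positivity) (fun x hx => by
    apply interior_subset
    apply hball
    rw [mem_ball_zero_iff]
    linarith)
  have h := illum_gen d k 1 hd le_rfl K hK K hK.2.1 hK.1 hsym hK.2.2 A hA1 hA2 0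
    (fun x hx => by rwa [sub_zero]) (fun x _ f hf z hz => by
      rw [sub_zero, Nat.cast_one, one_mul]
      exact hf z hz) θ h0 h1 (by rw [Nat.cast_one, one_mul]; exact h1.le)
  simpa using h

/-- all bodies -/
theorem illum_all (d k : ℕ) (hd : 1 ≤ d) (K : Set (E d)) (hK : IsBody K)
    (θ : ℝ) (h0 : 0 < θ) (h1 : θ < 1) (hθ : 2 * d * θ ≤ 1) :
    ∃ U : Finset (E d), (U.card : ℝ) ≤ 1 + (d * (d + 1)) * Real.log (20 * d ^ 6 + 1) *
        ((1 + (2 * d * θ + 1 / d)) ^ d / θ ^ k) ∧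
      ∀ x ∈ K, NormalDim K k x → ∃ v ∈ U, ∃ t : ℝ, 0 < t ∧ x + t • v ∈ interior K := by
  classical
  have hd1 : (1:ℝ) ≤ d := by exact_mod_cast hd
  have hd0 : (0:ℝ) < d := by linarith
  obtain ⟨a0, ha0⟩ := hK.2.2
  obtain ⟨ε, hε, hball⟩ := Metric.isOpen_iff.1 isOpen_interior _ ha0
  set D : Set (E d) := {z | ∃ a ∈ K, ∃ b ∈ K, z = a - b} with hD
  have hDe : D = (fun q : E d × E d => q.1 - q.2) '' (K ×ˢ K) := by
    ext z
    constructor
    · rintro ⟨a, ha, b, hb, rfl⟩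
      exact ⟨(a, b), ⟨ha, hb⟩, rfl⟩
    · rintro ⟨⟨a, b⟩, ⟨ha, hb⟩, rfl⟩
      exact ⟨a, ha, b, hb, rfl⟩
  have hDc : IsCompact D := by
    rw [hDe]
    exact (hK.2.1.prod hK.2.1).image (by fun_prop)
  have hDconv : Convex ℝ D := by
    rintro _ ⟨a, ha, b, hb, rfl⟩ _ ⟨a', ha', b', hb', rfl⟩ s t hs ht hst
    refine ⟨s • a + t • a', hK.1 ha ha' hs ht hst, s • b + t • b', hK.1 hb hb' hs ht hst, ?_⟩
    simp only [smul_sub]
    abel
  have hDsym : ∀ x ∈ D, -x ∈ D := by
    rintro _ ⟨a, ha, b, hb, rfl⟩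
    exact ⟨b, hb, a, ha, by abel⟩
  have hDball : ∀ z : E d, ‖z‖ < ε → z ∈ D := by
    intro z hz
    refine ⟨a0 + z, interior_subset (hball ?_), a0, interior_subset ha0, by abel⟩
    rw [Metric.mem_ball, dist_eq_norm, add_sub_cancel_left]
    exact hz
  have hDi : (interior D).Nonempty := by
    refine ⟨0, mem_interior.2 ⟨Metric.ball 0 ε, fun z hz => hDball z (mem_ball_zero_iff.1 hz),
      Metric.isOpen_ball, Metric.mem_ball_self hε⟩⟩
  obtain ⟨A, hA1, hA2⟩ := position D hDc (ε / 2) (by positivity) (fun x hx => hDball x (by linarith))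
  choose a ha b hb hab using hA1
  set p : E d := ∑ j, (1 / (2 * (d:ℝ))) • (a j + b j) with hp
  have hsumw : ∑ _j : Fin d, (1 / (d:ℝ)) = 1 := by
    simp [Finset.sum_const]
    field_simp
  have hpK : p ∈ K := by
    have h2 : p = ∑ j, (1 / (d:ℝ)) • ((1/2 : ℝ) • a j + (1/2 : ℝ) • b j) := by
      rw [hp]
      refine Finset.sum_congr rfl fun j _ => ?_
      rw [← smul_add, smul_smul]
      congr 1
      field_simp
    rw [h2]
    refine hK.1.sum_mem (fun j _ => by positivity) hsumw fun j _ => ?_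
    exact hK.1 (ha j) (hb j) (by norm_num) (by norm_num) (by norm_num)
  have hfun : ∀ x ∈ K, ∀ f : E d →L[ℝ] ℝ, (∀ z ∈ K, f z ≤ f x) → ∀ z ∈ D,
      f z ≤ ((2 * d : ℕ) : ℝ) * f (x - p) := by
    intro x hx f hf z hz
    have e1 : f z = ∑ j, (A z) j * f (A.symm (EuclideanSpace.single j 1)) := by
      have e2 : z = A.symm (∑ j, (A z) j • (EuclideanSpace.single j (1:ℝ) : E d)) := by
        rw [← sum_single, ContinuousLinearEquiv.symm_apply_apply]
      conv_lhs => rw [e2]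
      rw [map_sum, map_sum]
      refine Finset.sum_congr rfl fun j _ => ?_
      rw [map_smul, map_smul, smul_eq_mul]
    have e3 : ∀ j, (A z) j * f (A.symm (EuclideanSpace.single j 1)) ≤
        (f x - f (a j)) + (f x - f (b j)) := by
      intro j
      have h2 := hf _ (ha j)
      have h3 := hf _ (hb j)
      have h4 : |(A z) j * f (A.symm (EuclideanSpace.single j 1))| ≤
          (f x - f (a j)) + (f x - f (b j)) := by
        rw [abs_mul]
        have h5 : |f (A.symm (EuclideanSpace.single j 1))| ≤ (f x - f (a j)) + (f x - f (b j)) := by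
          rw [hab j, map_sub, abs_le]
          constructor <;> linarith
        calc |(A z) j| * |f (A.symm (EuclideanSpace.single j 1))|
            ≤ 1 * |f (A.symm (EuclideanSpace.single j 1))| :=
              mul_le_mul_of_nonneg_right (hA2 z hz j) (abs_nonneg _)
          _ ≤ _ := by rw [one_mul]; exact h5
      exact (le_abs_self _).trans h4
    have e4 : f p = ∑ j, (1 / (2 * (d:ℝ))) * (f (a j) + f (b j)) := by
      rw [hp, map_sum]
      refine Finset.sum_congr rfl fun j _ => ?_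
      rw [map_smul, map_add, smul_eq_mul]
    rw [e1, map_sub, e4]
    calc ∑ j, (A z) j * f (A.symm (EuclideanSpace.single j 1)) ≤
        ∑ j, ((f x - f (a j)) + (f x - f (b j))) := Finset.sum_le_sum fun j _ => e3 j
      _ = ((2 * d : ℕ) : ℝ) * (f x - ∑ j, (1 / (2 * (d:ℝ))) * (f (a j) + f (b j))) := by
        rw [← Finset.mul_sum]
        have e5 : ∀ j : Fin d, (f x - f (a j)) + (f x - f (b j)) = 2 * f x - (f (a j) + f (b j)) :=
          fun j => by ring
        simp_rw [e5]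
        rw [Finset.sum_sub_distrib, Finset.sum_const, Finset.card_univ, Fintype.card_fin,
          nsmul_eq_mul]
        push_cast
        field_simp
  have hkap : (1:ℕ) ≤ 2 * d := by omega
  obtain ⟨U, hU, h⟩ := illum_gen d k (2 * d) hd hkap K hK D hDc hDconv hDsym hDi A
    (fun j => by rw [hab j]; exact ⟨a j, ha j, b j, hb j, rfl⟩) hA2 p
    (fun x hx => ⟨x, hx, p, hpK, rfl⟩) hfun θ h0 h1 (by push_cast; exact hθ)
  refine ⟨U, ?_, h⟩
  have e1 : (10 * ((2 * d : ℕ) : ℝ) * d ^ 5 + 1) = 20 * d ^ 6 + 1 := by push_cast; ring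
  have e2 : (((2 * d : ℕ) : ℝ)) = 2 * d := by push_cast; ring
  rw [e1, e2] at hU
  exact hU

/-- **covering** from illumination, with a finite set of exceptional extreme points -/
theorem cover_of_ext (d k : ℕ) (hd : 1 ≤ d) (K : Set (E d)) (hK : IsBody K) (B : ℝ)
    (hB : ∃ U : Finset (E d), (U.card : ℝ) ≤ B ∧
      ∀ x ∈ K, NormalDim K k x → ∃ v ∈ U, ∃ t : ℝ, 0 < t ∧ x + t • v ∈ interior K)
    (F : Finset (E d)) (hF : ∀ x ∈ Set.extremePoints ℝ K, x ∉ F → NormalDim K k x) :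
    CoveredBy ((F.card : ℝ) + B) K := by
  classical
  obtain ⟨U, hU, h⟩ := hB
  obtain ⟨a, ha⟩ := hK.2.2
  set W : Finset (E d) := F.image fun x => a - x with hW
  -- add a direction to make the set nonempty
  have hill : ∀ x ∈ frontier K, ∃ u ∈ U ∪ W, ∃ t : ℝ, 0 < t ∧ x + t • u ∈ interior K := by
    intro x hx
    obtain ⟨v, hv, hdom⟩ := extreme_dom hK.1 hK.2.1 hK.2.2 hx
    by_cases hvF : v ∈ F
    · exact ⟨_, Finset.mem_union_right _ (Finset.mem_image_of_mem _ hvF),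
        hdom _ (toward_int hK.1 ha hv.1)⟩
    · obtain ⟨u, hu, hut⟩ := h v hv.1 (hF v hv hvF)
      exact ⟨u, Finset.mem_union_left _ hu, hdom _ hut⟩
  have hne : (U ∪ W).Nonempty := by
    have : (frontier K).Nonempty := by
      by_contra hcon
      rw [Set.not_nonempty_iff_eq_empty] at hcon
      have h2 : IsClopen K := isClopen_iff_frontier_eq_empty.2 hcon
      have h3 : K = Set.univ := h2.eq_univ ⟨a, interior_subset ha⟩
      have h4 := hK.2.1
      rw [h3] at h4
      have h5 : Nontrivial (E d) := by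
        refine ⟨⟨EuclideanSpace.single ⟨0, hd⟩ 1, 0, fun h6 => ?_⟩⟩
        have := congrArg (fun z : E d => z ⟨0, hd⟩) h6
        simp at this
      exact (noncompact_univ (E d)) h4
    obtain ⟨x, hx⟩ := this
    obtain ⟨u, hu, _⟩ := hill x hx
    exact ⟨u, hu⟩
  obtain ⟨T, hT, hcov⟩ := cover_of_illum hK.1 hK.2.1 (U ∪ W) hne hill
  refine ⟨T, hT.trans ?_, hcov⟩
  have h2 := Finset.card_union_le U W
  have h3 : W.card ≤ F.card := Finset.card_image_le
  have h4 : ((U ∪ W).card : ℝ) ≤ U.card + F.card := by exact_mod_cast h2.trans (by omega)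
  linarith

end Pool.Agent.TH84.NC
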