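import Pool.Agent.TH84.NC.Pair2

/-!
# Directions given by pairs of points, good for all points with small normal cones
-/

set_option autoImplicit false

open MeasureTheory Set ProbabilityTheory
open scoped ENNReal RealInnerProductSpace

namespace Pool.Agent.TH84.NC

open Pool.Agent.PZ871 (E)
open Pool.Agent.TH84.HC (coord_bound norm_close card_idx select)

theorem eps_pow (d : ℕ) (hd : 1 ≤ d) :
    (1 / 4 : ℝ) ≤ (1 - 1 / (2 * (d:ℝ))) ^ d * (1 - 1 / (2 * (d:ℝ))) ^ d := by
  have hd1 : (1:ℝ) ≤ d := by exact_mod_cast hd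
  have h1 : 1 / (2 * (d:ℝ)) ≤ 1 / 2 := by
    apply one_div_le_one_div_of_le (by norm_num)
    linarith
  have h2 := one_add_mul_le_pow (a := -(1 / (2 * (d:ℝ)))) (by linarith) d
  have h3 : 1 + (d:ℝ) * -(1 / (2 * (d:ℝ))) = 1 / 2 := by
    field_simp
    ring
  rw [h3, ← sub_eq_add_neg] at h2
  nlinarith

/-- **a finite set of pairs good for all points and all subspaces** -/
theorem core2 (d k : ℕ) (hd : 1 ≤ d) {K : Set (E d)} (hKc : IsCompact K)
    (hconv : Convex ℝ K) (hi : (interior K).Nonempty) (p : E d) (hp : p ∈ K)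
    (hbox : ∀ a ∈ K, ∀ b ∈ K, ∀ j, |(a - b) j| ≤ 1)
    (hfun : ∀ x ∈ K, ∀ f : E d →L[ℝ] ℝ, (∀ z ∈ K, f z ≤ f x) →
      ∀ j, |f (EuclideanSpace.single j 1)| ≤ 2 * d * f (x - p))
    (τ : ℝ) (h0 : 0 < τ) (h1 : τ < 1) :
    ∃ U : Finset (E d), (U.card : ℝ) ≤ 1 + 4 * (d * (d + 1)) * Real.log (20 * d ^ 6 + 1) *
        (((2 - τ) / τ) ^ k / (1 - τ) ^ d) ∧
      ∀ x ∈ K, ∀ Λ : Submodule ℝ (E d), d ≤ Module.finrank ℝ Λ + k → ∃ v ∈ U,
        ∀ f : E d →L[ℝ] ℝ, (∀ z ∈ K, f z ≤ f x) → (∀ u ∈ Λ, f u = 0) → f ≠ 0 → f v < 0 := by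
  classical
  have hd1 : (1:ℝ) ≤ d := by exact_mod_cast hd
  have hd0 : (0:ℝ) < d := by linarith
  set ε : ℝ := 1 / (2 * (d:ℝ)) with hε
  have hε0 : 0 < ε := by rw [hε]; positivity
  have hε1 : ε < 1 := by
    rw [hε, div_lt_one (by positivity)]; linarith
  set L : ℕ := 10 * d ^ 5 with hL
  have hLr : (L:ℝ) = 10 * (d:ℝ) ^ 5 := by rw [hL]; push_cast; ring
  have hL0 : (0:ℝ) < L := by rw [hLr]; positivity
  set N : ℕ := L * d with hN
  have hNr : (N:ℝ) = L * d := by rw [hN]; push_cast; ring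
  let μ : Measure (E d × E d) := ProbabilityTheory.cond
    ((volume : Measure (E d)).prod (volume : Measure (E d))) (K ×ˢ K)
  have hKprob : IsProbabilityMeasure μ := by
    apply ProbabilityTheory.cond_isProbabilityMeasure_of_finite
    · rw [Measure.prod_prod]
      have hK0 : volume K ≠ 0 := (lt_of_lt_of_le (isOpen_interior.measure_pos volume hi)
        (measure_mono interior_subset)).ne'
      exact mul_ne_zero hK0 hK0
    · rw [Measure.prod_prod]
      exact ENNReal.mul_ne_top hKc.measure_ne_top hKc.measure_ne_top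
  -- the codes
  let Q : (Fin (d + 1) → Fin d → ↥(Finset.Icc (-(N:ℤ)) (N:ℤ))) → (E d →L[ℝ] E d) × E d → Prop :=
    fun c q => (d ≤ Module.finrank ℝ (LinearMap.ker (q.1 : E d →ₗ[ℝ] E d)) + k) ∧ q.2 ∈ K ∧
      ∀ i j, ⌊(L:ℝ) * tup q.1 (q.2 - p) i j⌋ = (c i j : ℤ)
  let C : (Fin (d + 1) → Fin d → ↥(Finset.Icc (-(N:ℤ)) (N:ℤ))) → Set (E d × E d) := fun c =>
    if h : ∃ q, Q c q then Sp K τ ε h.choose.1 p h.choose.2 else Set.univ
  have hCm : ∀ c, MeasurableSet (C c) := by
    intro c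
    by_cases h : ∃ q, Q c q
    · simp only [C, dif_pos h]
      exact Sp_meas hKc _ _ _ _ _
    · simp only [C, dif_neg h]
      exact MeasurableSet.univ
  have hr0 : 0 < τ / (2 - τ) := div_pos h0 (by linarith)
  have hr1 : τ / (2 - τ) ≤ 1 := by
    rw [div_le_one (by linarith)]; linarith
  have ht0 : 0 < 1 - τ := by linarith
  set p0 : ℝ := 1 / 4 * ((1 - τ) ^ d * (τ / (2 - τ)) ^ k) with hp0
  have hp0' : 0 < p0 := by rw [hp0]; positivity
  have hp1 : p0 ≤ 1 := by
    have a1 : (1 - τ) ^ d ≤ 1 := pow_le_one₀ ht0.le (by linarith)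
    have a2 : (τ / (2 - τ)) ^ k ≤ 1 := pow_le_one₀ hr0.le hr1
    have a3 : (1 - τ) ^ d * (τ / (2 - τ)) ^ k ≤ 1 := mul_le_one₀ a1 (by positivity) a2
    rw [hp0]
    linarith
  have hCp : ∀ c, p0 ≤ μ.real (C c) := by
    intro c
    by_cases h : ∃ q, Q c q
    · simp only [C, dif_pos h]
      refine le_trans ?_ (Sp_prob hKc hconv hi τ ε h0 h1 hε0 hε1 _ h.choose_spec.1 p _ hp
        h.choose_spec.2.1)
      rw [mul_pow, hp0]
      have a1 := eps_pow d hd
      rw [← hε] at a1
      have a2 : 0 ≤ (1 - τ) ^ d * (τ / (2 - τ)) ^ k := by positivity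
      calc 1 / 4 * ((1 - τ) ^ d * (τ / (2 - τ)) ^ k)
          ≤ ((1 - ε) ^ d * (1 - ε) ^ d) * ((1 - τ) ^ d * (τ / (2 - τ)) ^ k) :=
            mul_le_mul_of_nonneg_right a1 a2
        _ = (1 - ε) ^ d * ((1 - ε) ^ d * (1 - τ) ^ d) * (τ / (2 - τ)) ^ k := by ring
    · simp only [C, dif_neg h]
      rw [probReal_univ]
      exact hp1
  have hFge : (1:ℝ) ≤ (2 * N + 1 : ℝ) ^ (d * (d + 1)) := by
    apply one_le_pow₀
    have : (0:ℝ) ≤ N := Nat.cast_nonneg N
    linarith
  obtain ⟨U, hU, hsel⟩ := select μ C hCm p0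
    ((2 * N + 1 : ℝ) ^ (d * (d + 1))) hp0' hCp hp1 hFge (card_idx (d + 1) d N).le
  refine ⟨U.image fun z => z.1 - z.2, ?_, ?_⟩
  · refine le_trans (by exact_mod_cast Finset.card_image_le) (hU.trans ?_)
    rw [Real.log_pow]
    have e1 : (2 * (N:ℝ) + 1) = 20 * d ^ 6 + 1 := by
      rw [hNr, hLr]; ring
    rw [e1, hp0]
    have e2 : ((d * (d + 1) : ℕ) : ℝ) * Real.log (20 * d ^ 6 + 1) /
        (1 / 4 * ((1 - τ) ^ d * (τ / (2 - τ)) ^ k)) =
        4 * (d * (d + 1)) * Real.log (20 * d ^ 6 + 1) * (((2 - τ) / τ) ^ k / (1 - τ) ^ d) := by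
      push_cast
      have e3 : ((2 - τ) / τ) ^ k = ((τ / (2 - τ)) ^ k)⁻¹ := by
        rw [← inv_pow, inv_div]
      rw [e3]
      have a1 : (1 - τ) ^ d ≠ 0 := (pow_pos ht0 d).ne'
      have a2 : (τ / (2 - τ)) ^ k ≠ 0 := (pow_pos hr0 k).ne'
      generalize (τ / (2 - τ)) ^ k = Y at *
      field_simp
    rw [e2]
  · intro x hx Λ hΛ
    set P : E d →L[ℝ] E d := (Λᗮ).starProjection with hPd
    have hPn : ∀ u, ‖P u‖ ≤ ‖u‖ := fun u => Submodule.norm_starProjection_apply_le _ u
    have hPk : ∀ u, P u = 0 ↔ u ∈ Λ := by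
      intro u
      rw [hPd, Submodule.starProjection_apply_eq_zero_iff, Submodule.orthogonal_orthogonal]
    have hPΛ : LinearMap.ker (P : E d →ₗ[ℝ] E d) = Λ := by
      ext u
      rw [LinearMap.mem_ker]
      exact hPk u
    have hPP : ∀ u, u - P u ∈ Λ := by
      intro u
      have h := Submodule.sub_starProjection_mem_orthogonal (K := Λᗮ) u
      rwa [Submodule.orthogonal_orthogonal] at h
    have hxb := hbox x hx p hp
    have hcode : ∀ i j, ⌊(L:ℝ) * tup P (x - p) i j⌋ ∈ Finset.Icc (-(N:ℤ)) (N:ℤ) := by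
      intro i j
      have h2 := (coord_bound (tup P (x - p) i) j).trans (tup_norm hd P hPn (x - p) hxb i)
      rw [abs_le] at h2
      rw [Finset.mem_Icc]
      constructor
      · rw [Int.le_floor]
        push_cast
        rw [hNr]
        nlinarith [h2.1]
      · have h3 : (⌊(L:ℝ) * tup P (x - p) i j⌋ : ℝ) ≤ (N:ℝ) :=
          (Int.floor_le _).trans (by rw [hNr]; nlinarith [h2.2])
        exact_mod_cast h3
    let c : Fin (d + 1) → Fin d → ↥(Finset.Icc (-(N:ℤ)) (N:ℤ)) := fun i j => ⟨_, hcode i j⟩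
    have hc : ∃ q, Q c q := ⟨(P, x), by rw [hPΛ]; exact hΛ, hx, fun i j => rfl⟩
    obtain ⟨v, hv, hvC⟩ := hsel c
    simp only [C, dif_pos hc] at hvC
    obtain ⟨-, hx', hcl⟩ := hc.choose_spec
    set P' : E d →L[ℝ] E d := hc.choose.1 with hP'
    set x' : E d := hc.choose.2 with hx'd
    refine ⟨v.1 - v.2, Finset.mem_image_of_mem _ hv, fun f hf hfΛ hf0 => ?_⟩
    obtain ⟨hw, hy, q, hq, hwq⟩ := hvC
    set b : ℝ := (1 - ε) * (1 - τ) with hb
    have hb0 : 0 < b := mul_pos (by linarith) ht0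
    set w : E d := (1 - ε)⁻¹ • (v.1 - ε • p) with hwd
    set y : E d := b⁻¹ • (v.2 - (1 - b) • x') with hyd
    have hwK : w ∈ K := hw
    have hyK : y ∈ K := hy
    have hv1 : v.1 = (1 - ε) • w + ε • p := by
      rw [hwd, smul_smul, mul_inv_cancel₀ (by linarith : (1 - ε) ≠ 0), one_smul]
      abel
    have hv2 : v.2 = b • y + (1 - b) • x' := by
      rw [hyd, smul_smul, mul_inv_cancel₀ hb0.ne', one_smul]
      abel
    -- closeness
    have hclose : ∀ i, ‖tup P (x - p) i - tup P' (x' - p) i‖ ≤ 1 / L * Real.sqrt d := by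
      intro i
      refine norm_close _ _ _ (by positivity) fun j => ?_
      have e : ⌊(L:ℝ) * tup P' (x' - p) i j⌋ = ⌊(L:ℝ) * tup P (x - p) i j⌋ := hcl i j
      have h4 := Int.abs_sub_lt_one_of_floor_eq_floor e
      rw [← mul_sub, abs_mul, abs_of_pos hL0] at h4
      rw [abs_sub_comm, le_div_iff₀ hL0]
      linarith
    have hsq : Real.sqrt d ≤ d := by
      rw [Real.sqrt_le_left (by linarith)]
      nlinarith
    set δ : ℝ := d / L with hδ
    have hδ0 : 0 < δ := by rw [hδ]; positivity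
    have hclose' : ∀ i, ‖tup P (x - p) i - tup P' (x' - p) i‖ ≤ δ := by
      intro i
      refine (hclose i).trans ?_
      rw [hδ, one_div, inv_mul_eq_div]
      exact div_le_div_of_nonneg_right hsq hL0.le
    have hPP' : ∀ u : E d, (∀ j, |u j| ≤ 1) → ‖P u - P' u‖ ≤ d * δ := by
      intro u hu
      have h2 := map_bound (P - P') δ (fun j => by
        have h3 := hclose' j.castSucc
        rw [tup_cast, tup_cast] at h3
        simpa using h3) u hu
      simpa using h2
    have hxx' : ‖x - x'‖ ≤ δ := by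
      have h3 := hclose' (Fin.last d)
      rw [tup_last, tup_last, sub_sub_sub_cancel_right] at h3
      exact h3
    -- the functional
    set H : ℝ := f (x - p) with hH
    have hfe : ∀ j, |f (EuclideanSpace.single j 1)| ≤ 2 * d * H := hfun x hx f hf
    have hH0 : 0 < H := by
      by_contra hcon
      push Not at hcon
      apply hf0
      ext u
      have h2 := fun_bound f 0 (fun j => (hfe j).trans
        (mul_nonpos_of_nonneg_of_nonpos (by positivity) hcon)) u
      rw [mul_zero, zero_mul] at h2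
      simpa using abs_nonpos_iff.1 h2
    have hfb := fun_bound f (2 * d * H) hfe
    have hfP : ∀ u, f (P u) = f u := by
      intro u
      have h2 := hfΛ _ (hPP u)
      rw [map_sub] at h2
      linarith
    -- the difference
    set u : E d := w - ((1 - τ) • y + τ • q) with hu
    have hyq : (1 - τ) • y + τ • q ∈ K := hconv hyK hq ht0.le h0.le (by ring)
    have hub : ∀ j, |u j| ≤ 1 := hbox w hwK _ hyq
    have hPu : P' u = 0 := by
      rw [hu, map_sub]
      have h2 : P' w = P' ((1 - τ) • y + τ • q) := hwq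
      rw [h2, sub_self]
    have h2 : f u ≤ d * (2 * d * H) * (d * δ) := by
      have h3 := (hfb (P u - P' u)).trans
        (mul_le_mul_of_nonneg_left (hPP' u hub) (by positivity))
      rw [hPu, sub_zero, hfP] at h3
      exact (le_abs_self _).trans h3
    have h3 : f (x - x') ≤ d * (2 * d * H) * δ :=
      (le_abs_self _).trans ((hfb _).trans (mul_le_mul_of_nonneg_left hxx' (by positivity)))
    have h4 : f q ≤ f x := hf q hq
    rw [map_sub] at h3
    have hlin : ∀ (s t : ℝ) (a c : E d), f (s • a + t • c) = s * f a + t * f c := by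
      intro s t a c
      rw [map_add, map_smul, map_smul, smul_eq_mul, smul_eq_mul]
    have h5 : f u = f w - ((1 - τ) * f y + τ * f q) := by
      rw [hu, map_sub, hlin]
    have h6 : H = f x - f p := by rw [hH, map_sub]
    have h7 : f (v.1 - v.2) = (1 - ε) * f w + ε * f p - (b * f y + (1 - b) * f x') := by
      rw [hv1, hv2, map_sub, hlin, hlin]
    have hb1 : b ≤ 1 := by
      rw [hb]
      exact mul_le_one₀ (by linarith) ht0.le (by linarith)
    have h8 : f (v.1 - v.2) ≤ d * (2 * d * H) * (d * δ) + d * (2 * d * H) * δ - ε * H := by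
      have e1 : f (v.1 - v.2) = (1 - ε) * f u + (1 - ε) * τ * (f q - f x) +
          (1 - b) * (f x - f x') - ε * H := by
        rw [h7, h5, h6, hb]
        ring
      rw [e1]
      have a1 : (1 - ε) * f u ≤ 1 * (d * (2 * d * H) * (d * δ)) := by
        have a0 : (0:ℝ) ≤ d * (2 * d * H) * (d * δ) := by positivity
        calc (1 - ε) * f u ≤ (1 - ε) * (d * (2 * d * H) * (d * δ)) :=
              mul_le_mul_of_nonneg_left h2 (by linarith)
          _ ≤ 1 * (d * (2 * d * H) * (d * δ)) := mul_le_mul_of_nonneg_right (by linarith) a0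
      have a2 : (1 - ε) * τ * (f q - f x) ≤ 0 :=
        mul_nonpos_of_nonneg_of_nonpos (mul_nonneg (by linarith) h0.le) (by linarith)
      have a3 : (1 - b) * (f x - f x') ≤ 1 * (d * (2 * d * H) * δ) := by
        have a0 : (0:ℝ) ≤ d * (2 * d * H) * δ := by positivity
        calc (1 - b) * (f x - f x') ≤ (1 - b) * (d * (2 * d * H) * δ) :=
              mul_le_mul_of_nonneg_left h3 (by linarith)
          _ ≤ 1 * (d * (2 * d * H) * δ) := mul_le_mul_of_nonneg_right (by linarith) a0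
      linarith
    have h9 : d * (2 * d * H) * (d * δ) + d * (2 * d * H) * δ - ε * H < 0 := by
      have e1 : d * (2 * d * H) * (d * δ) + d * (2 * d * H) * δ - ε * H =
          H * ((2 * d ^ 2 * (d + 1)) * δ - ε) := by ring
      rw [e1]
      apply mul_neg_of_pos_of_neg hH0
      rw [hδ, hε, hLr, sub_neg]
      have e2 : 2 * (d:ℝ) ^ 2 * (d + 1) * (d / (10 * d ^ 5)) = (d + 1) / (5 * d ^ 2) := by
        field_simp
        ring
      rw [e2, div_lt_div_iff₀ (by positivity) (by positivity)]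
      nlinarith
    linarith

end Pool.Agent.TH84.NC
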