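import Pool.Agent.TH84.NC.Main
import Pool.Agent.TH84.NC.Net2

/-!
# Covering arbitrary convex bodies with small normal cones
-/

set_option autoImplicit false

open MeasureTheory Set ProbabilityTheory
open scoped ENNReal RealInnerProductSpace

namespace Pool.Agent.TH84.NC

open Pool.Agent.PZ871 (E)
open Pool.Agent.TH84.HC

/-- a position and a centre for an arbitrary body -/
theorem centre (d : ℕ) (hd : 1 ≤ d) (K : Set (E d)) (hK : IsBody K) :
    ∃ A : E d ≃L[ℝ] E d, ∃ p ∈ K, (∀ a ∈ K, ∀ b ∈ K, ∀ j, |(A (a - b)) j| ≤ 1) ∧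
      ∀ x ∈ K, ∀ f : E d →L[ℝ] ℝ, (∀ z ∈ K, f z ≤ f x) →
        ∀ j, |f (A.symm (EuclideanSpace.single j 1))| ≤ 2 * d * f (x - p) := by
  classical
  have hd1 : (1:ℝ) ≤ d := by exact_mod_cast hd
  have hd0 : (0:ℝ) < d := by linarith
  obtain ⟨a0, ha0⟩ := hK.2.2
  obtain ⟨ε, hε, hball⟩ := Metric.isOpen_iff.1 isOpen_interior _ ha0
  set D : Set (E d) := {z | ∃ a ∈ K, ∃ b ∈ K, z = a - b} with hD
  have hDe : D = (fun q : E d × E d => q.1 - q.2) '' (K ×ˢ K) := by
    ext z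
    constructor
    · rintro ⟨a, ha, b, hb, rfl⟩
      exact ⟨(a, b), ⟨ha, hb⟩, rfl⟩
    · rintro ⟨⟨a, b⟩, ⟨ha, hb⟩, rfl⟩
      exact ⟨a, ha, b, hb, rfl⟩
  have hDc : IsCompact D := by
    rw [hDe]
    exact (hK.2.1.prod hK.2.1).image (by fun_prop)
  have hDball : ∀ z : E d, ‖z‖ < ε → z ∈ D := by
    intro z hz
    refine ⟨a0 + z, interior_subset (hball ?_), a0, interior_subset ha0, by abel⟩
    rw [Metric.mem_ball, dist_eq_norm, add_sub_cancel_left]
    exact hz
  obtain ⟨A, hA1, hA2⟩ := position D hDc (ε / 2) (by positivity) (fun x hx => hDball x (by linarith))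
  choose a ha b hb hab using hA1
  set p : E d := ∑ j, (1 / (2 * (d:ℝ))) • (a j + b j) with hp
  have hsumw : ∑ _j : Fin d, (1 / (d:ℝ)) = 1 := by
    simp [Finset.sum_const]
    field_simp
  have hpK : p ∈ K := by
    have h2 : p = ∑ j, (1 / (d:ℝ)) • ((1/2 : ℝ) • a j + (1/2 : ℝ) • b j) := by
      rw [hp]
      refine Finset.sum_congr rfl fun j _ => ?_
      rw [← smul_add, smul_smul]
      congr 1
      field_simp
    rw [h2]
    refine hK.1.sum_mem (fun j _ => by positivity) hsumw fun j _ => ?_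
    exact hK.1 (ha j) (hb j) (by norm_num) (by norm_num) (by norm_num)
  refine ⟨A, p, hpK, fun a ha b hb j => hA2 _ ⟨a, ha, b, hb, rfl⟩ j, ?_⟩
  intro x hx f hf j
  have h5 : |f (A.symm (EuclideanSpace.single j 1))| ≤ (f x - f (a j)) + (f x - f (b j)) := by
    have h2 := hf _ (ha j)
    have h3 := hf _ (hb j)
    rw [hab j, map_sub, abs_le]
    constructor <;> linarith
  refine h5.trans ?_
  have e4 : f p = ∑ j, (1 / (2 * (d:ℝ))) * (f (a j) + f (b j)) := by
    rw [hp, map_sum]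
    refine Finset.sum_congr rfl fun j _ => ?_
    rw [map_smul, map_add, smul_eq_mul]
  have e5 : 2 * d * f (x - p) = ∑ j, ((f x - f (a j)) + (f x - f (b j))) := by
    rw [map_sub, e4, ← Finset.mul_sum]
    have e5 : ∀ j : Fin d, (f x - f (a j)) + (f x - f (b j)) = 2 * f x - (f (a j) + f (b j)) :=
      fun j => by ring
    simp_rw [e5]
    rw [Finset.sum_sub_distrib, Finset.sum_const, Finset.card_univ, Fintype.card_fin,
      nsmul_eq_mul]
    field_simp
  rw [e5]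
  refine Finset.single_le_sum (f := fun j => (f x - f (a j)) + (f x - f (b j))) ?_ (Finset.mem_univ j)
  intro i _
  have h2 := hf _ (ha i)
  have h3 := hf _ (hb i)
  show 0 ≤ (f x - f (a i)) + (f x - f (b i))
  linarith

/-- all bodies, by pairs of points -/
theorem illum_pairs (d k : ℕ) (hd : 1 ≤ d) (K : Set (E d)) (hK : IsBody K)
    (τ : ℝ) (h0 : 0 < τ) (h1 : τ < 1) :
    ∃ U : Finset (E d), (U.card : ℝ) ≤ 1 + 4 * (d * (d + 1)) * Real.log (20 * d ^ 6 + 1) *
        (((2 - τ) / τ) ^ k / (1 - τ) ^ d) ∧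
      ∀ x ∈ K, NormalDim K k x → ∃ v ∈ U, ∃ t : ℝ, 0 < t ∧ x + t • v ∈ interior K := by
  classical
  obtain ⟨A, p, hp, hbox, hfun⟩ := centre d hd K hK
  have hc' : IsCompact (A '' K) := hK.2.1.image A.continuous
  have hconv' : Convex ℝ (A '' K) := hK.1.linear_image (A : E d →ₗ[ℝ] E d)
  have hi' : (interior (A '' K)).Nonempty := by
    obtain ⟨a, ha⟩ := hK.2.2
    have h2 : A.toHomeomorph '' interior K = interior (A.toHomeomorph '' K) :=
      A.toHomeomorph.image_interior K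
    have h3 : A a ∈ interior (A.toHomeomorph '' K) := by
      rw [← h2]
      exact ⟨a, ha, rfl⟩
    exact ⟨A a, h3⟩
  have hbox' : ∀ a ∈ A '' K, ∀ b ∈ A '' K, ∀ j, |(a - b) j| ≤ 1 := by
    rintro _ ⟨a, ha, rfl⟩ _ ⟨b, hb, rfl⟩ j
    rw [← map_sub]
    exact hbox a ha b hb j
  have hfun' : ∀ x ∈ A '' K, ∀ f : E d →L[ℝ] ℝ, (∀ z ∈ A '' K, f z ≤ f x) →
      ∀ j, |f (EuclideanSpace.single j 1)| ≤ 2 * d * f (x - A p) := by
    rintro _ ⟨x, hx, rfl⟩ f hf j
    have h2 := hfun x hx (f.comp (A : E d →L[ℝ] E d)) (fun z hz => hf (A z) ⟨z, hz, rfl⟩) j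
    have h3 : |f (A (A.symm (EuclideanSpace.single j 1)))| ≤ 2 * d * f (A (x - p)) := h2
    rwa [ContinuousLinearEquiv.apply_symm_apply, map_sub] at h3
  obtain ⟨U, hU, h⟩ := core2 d k hd hc' hconv' hi' (A p) ⟨p, hp, rfl⟩ hbox' hfun' τ h0 h1
  refine ⟨U.image fun v => A.symm v, ?_, ?_⟩
  · refine le_trans ?_ hU
    exact_mod_cast Finset.card_image_le
  · rintro x hx ⟨Λ, hΛ, hN⟩
    have hfin : Module.finrank ℝ (Λ.map (A : E d →ₗ[ℝ] E d)) = Module.finrank ℝ Λ :=
      LinearEquiv.finrank_map_eq A.toLinearEquiv Λ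
    obtain ⟨v, hv, hvf⟩ := h (A x) ⟨x, hx, rfl⟩ (Λ.map (A : E d →ₗ[ℝ] E d))
      (by rw [hfin]; exact hΛ)
    refine ⟨A.symm v, Finset.mem_image_of_mem _ hv, ?_⟩
    by_contra hcon
    push Not at hcon
    obtain ⟨f, hfi, hfz, hfv⟩ := sep_ray hK.1 hK.2.2 hx (A.symm v) hcon
    have h3 := hvf (f.comp (A.symm : E d →L[ℝ] E d)) ?_ ?_ ?_
    · have h4 : f (A.symm v) < 0 := h3
      linarith
    · rintro _ ⟨z, hz, rfl⟩
      show f (A.symm (A z)) ≤ f (A.symm (A x))
      rw [ContinuousLinearEquiv.symm_apply_apply, ContinuousLinearEquiv.symm_apply_apply]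
      exact hfz z hz
    · rintro _ ⟨u, hu, rfl⟩
      show f (A.symm (A u)) = 0
      rw [ContinuousLinearEquiv.symm_apply_apply]
      exact hN f hfz u hu
    · intro h5
      obtain ⟨a, ha⟩ := hK.2.2
      have h6 : f = 0 := by
        ext u
        have := congrArg (fun g : E d →L[ℝ] ℝ => g (A u)) h5
        have h7 : f (A.symm (A u)) = 0 := this
        rw [ContinuousLinearEquiv.symm_apply_apply] at h7
        simpa using h7
      have h8 := hfi a ha
      rw [h6] at h8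
      simp at h8

end Pool.Agent.TH84.NC
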