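import Mathlib

/-!
# Numerical estimates
-/

set_option autoImplicit false

namespace Pool.Agent.TH84.NC

/-- the loss `1/d` -/
theorem one_add_pow {d : ℕ} (hd : 1 ≤ d) (θ : ℝ) (h0 : 0 < θ) :
    (1 + (θ + 1 / d)) ^ d ≤ 3 * (1 + θ) ^ d := by
  have hd0 : (0:ℝ) < d := by exact_mod_cast hd
  have h1 : 1 + (θ + 1 / (d:ℝ)) ≤ (1 + 1 / d) * (1 + θ) := by
    have : 0 < 1 / (d:ℝ) * θ := by positivity
    linarith
  have h2 : (1 + 1 / (d:ℝ)) ^ d ≤ 3 := by
    have h3 : 1 + 1 / (d:ℝ) ≤ Real.exp (1 / d) := by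
      have := Real.add_one_le_exp (1 / (d:ℝ))
      linarith
    calc (1 + 1 / (d:ℝ)) ^ d ≤ Real.exp (1 / d) ^ d := pow_le_pow_left₀ (by positivity) h3 d
      _ = Real.exp 1 := by
          rw [← Real.exp_nat_mul]
          congr 1
          field_simp
      _ ≤ 3 := by
          have := Real.exp_one_lt_d9
          linarith
  calc (1 + (θ + 1 / (d:ℝ))) ^ d ≤ ((1 + 1 / d) * (1 + θ)) ^ d :=
        pow_le_pow_left₀ (by positivity) h1 d
    _ = (1 + 1 / (d:ℝ)) ^ d * (1 + θ) ^ d := mul_pow _ _ _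
    _ ≤ 3 * (1 + θ) ^ d := mul_le_mul_of_nonneg_right h2 (by positivity)

/-- exponential form -/
theorem rate_exp {d k : ℕ} (hd : 1 ≤ d) (h : 2 * k < d) :
    ∃ θ : ℝ, 0 < θ ∧ θ < 1 ∧ (1 + (θ + 1 / d)) ^ d / θ ^ k ≤
      3 * (2 ^ d * Real.exp (-(((d:ℝ) - 2 * k) ^ 2 / (2 * d)))) := by
  have hd0 : (0:ℝ) < d := by exact_mod_cast hd
  have hk : (2:ℝ) * k < d := by exact_mod_cast h
  set m : ℝ := (d:ℝ) - 2 * k with hm
  have hm0 : 0 < m := by linarith
  set x : ℝ := m / d with hx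
  have hx0 : 0 < x := by positivity
  refine ⟨Real.exp (-(2 * x)), Real.exp_pos _, ?_, ?_⟩
  · rw [Real.exp_lt_one_iff]
    linarith
  set θ : ℝ := Real.exp (-(2 * x)) with hθ
  have hθ0 : 0 < θ := Real.exp_pos _
  have h1 : 1 + θ ≤ 2 * Real.exp (-x + x ^ 2 / 2) := by
    have e : 1 + θ = 2 * (Real.exp (-x) * Real.cosh x) := by
      rw [Real.cosh_eq, hθ]
      have e1 : Real.exp (-x) * Real.exp x = 1 := by rw [← Real.exp_add]; simp
      have e2 : Real.exp (-x) * Real.exp (-x) = Real.exp (-(2 * x)) := by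
        rw [← Real.exp_add]; congr 1; ring
      linear_combination (-1) * e1 - e2
    rw [e, Real.exp_add]
    gcongr
    exact Real.cosh_le_exp_half_sq x
  have h2 : (1 + θ) ^ d ≤ 2 ^ d * Real.exp (d * (-x + x ^ 2 / 2)) := by
    calc (1 + θ) ^ d ≤ (2 * Real.exp (-x + x ^ 2 / 2)) ^ d :=
          pow_le_pow_left₀ (by positivity) h1 d
      _ = _ := by rw [mul_pow, ← Real.exp_nat_mul]
  have h3 : θ ^ k = Real.exp (-(2 * x * k)) := by
    rw [hθ, ← Real.exp_nat_mul]
    congr 1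
    ring
  have h4 : 2 ^ d * Real.exp (d * (-x + x ^ 2 / 2)) / θ ^ k =
      2 ^ d * Real.exp (-(m ^ 2 / (2 * d))) := by
    rw [h3, mul_div_assoc, ← Real.exp_sub]
    congr 2
    rw [hx]
    have hk' : (k:ℝ) = (d - m) / 2 := by rw [hm]; ring
    rw [hk']
    field_simp
    ring
  calc (1 + (θ + 1 / (d:ℝ))) ^ d / θ ^ k ≤ 3 * (1 + θ) ^ d / θ ^ k :=
        div_le_div_of_nonneg_right (one_add_pow hd θ hθ0) (by positivity)
    _ ≤ 3 * (2 ^ d * Real.exp (d * (-x + x ^ 2 / 2))) / θ ^ k := by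
        apply div_le_div_of_nonneg_right _ (by positivity)
        linarith
    _ = 3 * (2 ^ d * Real.exp (-(m ^ 2 / (2 * d)))) := by rw [mul_div_assoc, h4]

/-- binomial form -/
theorem rate_choose {d k : ℕ} (hk : 1 ≤ k) (h : 2 * k < d) :
    ∃ θ : ℝ, 0 < θ ∧ θ < 1 ∧ (1 + (θ + 1 / d)) ^ d / θ ^ k ≤ 3 * ((d + 1) * (d.choose k : ℝ)) := by
  have hd : 1 ≤ d := by omega
  have hd0 : (0:ℝ) < d := by exact_mod_cast hd
  have hk0 : (0:ℝ) < k := by exact_mod_cast hk
  have hk2 : (2:ℝ) * k < d := by exact_mod_cast h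
  have hdk : (0:ℝ) < d - k := by linarith
  refine ⟨k / (d - k), by positivity, by rw [div_lt_one hdk]; linarith, ?_⟩
  set θ : ℝ := k / (d - k) with hθ
  have hθ0 : 0 < θ := by positivity
  let a : ℕ → ℝ := fun j => θ ^ j * (d.choose j : ℝ)
  have hrec : ∀ j, j < d → a (j + 1) * (j + 1) = a j * (θ * (d - j)) := by
    intro j hj
    have h1 : (d.choose (j + 1) : ℝ) * ((j:ℝ) + 1) = d.choose j * ((d:ℝ) - j) := by
      have h2 := Nat.choose_succ_right_eq d j
      have h3 : ((d.choose (j + 1) * (j + 1) : ℕ) : ℝ) = ((d.choose j * (d - j) : ℕ) : ℝ) := by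
        rw [h2]
      push_cast [Nat.cast_sub hj.le] at h3
      exact h3
    show θ ^ (j + 1) * (d.choose (j + 1) : ℝ) * (j + 1) = θ ^ j * (d.choose j : ℝ) * (θ * (d - j))
    calc θ ^ (j + 1) * (d.choose (j + 1) : ℝ) * (j + 1) =
        θ ^ (j + 1) * ((d.choose (j + 1) : ℝ) * (j + 1)) := by ring
      _ = θ ^ (j + 1) * (d.choose j * ((d:ℝ) - j)) := by rw [h1]
      _ = _ := by ring
  have ha0 : ∀ j, 0 ≤ a j := fun j => by positivity
  have hup : ∀ j, j < k → a j ≤ a (j + 1) := by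
    intro j hj
    have hjd : j < d := by omega
    have h1 := hrec j hjd
    have hj' : (j:ℝ) + 1 ≤ k := by exact_mod_cast hj
    have h2 : (j:ℝ) + 1 ≤ θ * (d - j) := by
      rw [hθ, div_mul_eq_mul_div, le_div_iff₀ hdk]
      nlinarith
    have h3 : a j * ((j:ℝ) + 1) ≤ a (j + 1) * (j + 1) := by
      rw [h1]
      exact mul_le_mul_of_nonneg_left h2 (ha0 j)
    exact le_of_mul_le_mul_right h3 (by positivity)
  have hdown : ∀ j, k ≤ j → j < d → a (j + 1) ≤ a j := by
    intro j hj hjd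
    have h1 := hrec j hjd
    have hj' : (k:ℝ) ≤ j := by exact_mod_cast hj
    have h2 : θ * (d - j) ≤ (j:ℝ) + 1 := by
      rw [hθ, div_mul_eq_mul_div, div_le_iff₀ hdk]
      nlinarith
    have h3 : a (j + 1) * (j + 1) ≤ a j * ((j:ℝ) + 1) := by
      rw [h1]
      exact mul_le_mul_of_nonneg_left h2 (ha0 j)
    exact le_of_mul_le_mul_right h3 (by positivity)
  have hle1 : ∀ i, i ≤ k → a (k - i) ≤ a k := by
    intro i
    induction i with
    | zero => intro _; simp
    | succ i ih =>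
      intro hi
      have h1 := hup (k - (i + 1)) (by omega)
      have e : k - (i + 1) + 1 = k - i := by omega
      rw [e] at h1
      exact h1.trans (ih (by omega))
  have hle2 : ∀ i, k + i ≤ d → a (k + i) ≤ a k := by
    intro i
    induction i with
    | zero => intro _; simp
    | succ i ih =>
      intro hi
      exact (hdown (k + i) (by omega) (by omega)).trans (ih (by omega))
  have hall : ∀ j, j ≤ d → a j ≤ a k := by
    intro j hj
    rcases le_total j k with h1 | h1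
    · have := hle1 (k - j) (by omega)
      rwa [Nat.sub_sub_self h1] at this
    · have := hle2 (j - k) (by omega)
      rwa [Nat.add_sub_cancel' h1] at this
  have hsum : (1 + θ) ^ d ≤ (d + 1) * a k := by
    rw [add_comm, add_pow]
    calc ∑ j ∈ Finset.range (d + 1), θ ^ j * 1 ^ (d - j) * (d.choose j : ℝ) ≤
        ∑ _j ∈ Finset.range (d + 1), a k := by
          refine Finset.sum_le_sum fun j hj => ?_
          rw [one_pow, mul_one]
          exact hall j (by
            have := Finset.mem_range.1 hj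
            omega)
      _ = (d + 1) * a k := by simp
  have hpk : 0 < θ ^ k := by positivity
  calc (1 + (θ + 1 / (d:ℝ))) ^ d / θ ^ k ≤ 3 * (1 + θ) ^ d / θ ^ k :=
        div_le_div_of_nonneg_right (one_add_pow hd θ hθ0) (by positivity)
    _ ≤ 3 * ((d + 1) * a k) / θ ^ k := by
        apply div_le_div_of_nonneg_right _ (by positivity)
        linarith
    _ = 3 * ((d + 1) * (d.choose k : ℝ)) := by
        show 3 * ((d + 1) * (θ ^ k * (d.choose k : ℝ))) / θ ^ k = _
        field_simp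

/-- small dimensions are excluded -/
theorem dim23 {d : ℕ} (hd : 2 ≤ d) (h : 8 * Real.log d ≤ d) : 23 ≤ d := by
  by_contra hc
  push Not at hc
  have hd0 : (2:ℝ) ≤ d := by exact_mod_cast hd
  have hl2 : 0.6931471803 < Real.log 2 := Real.log_two_gt_d9
  have key : ∀ n : ℕ, (2:ℝ) ^ n ≤ d → n * Real.log 2 ≤ Real.log d := by
    intro n hn
    have := Real.log_le_log (by positivity) hn
    rwa [Real.log_pow] at this
  rcases le_or_gt d 5 with h1 | h1
  · have h2 := key 1 (by norm_num; exact hd)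
    have h3 : (d:ℝ) ≤ 5 := by exact_mod_cast h1
    norm_num at h2
    linarith
  · rcases le_or_gt d 11 with h2 | h2
    · have h3 := key 2 (by norm_num; exact_mod_cast (by omega : 4 ≤ d))
      have h4 : (d:ℝ) ≤ 11 := by exact_mod_cast h2
      norm_num at h3
      linarith
    · rcases le_or_gt d 16 with h3 | h3
      · have h4 := key 3 (by norm_num; exact_mod_cast (by omega : 8 ≤ d))
        have h5 : (d:ℝ) ≤ 16 := by exact_mod_cast h3
        norm_num at h4
        linarith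
      · have h4 := key 4 (by norm_num; exact_mod_cast (by omega : 16 ≤ d))
        have h5 : (d:ℝ) ≤ 22 := by exact_mod_cast (by omega : d ≤ 22)
        norm_num at h4
        linarith

/-- the strict bound -/
theorem strict_num {d k : ℕ} (hd : 2 ≤ d) (hk : 2 * k ≤ d)
    (h : 8 * (d * Real.log d) ≤ ((d:ℝ) - 2 * k) ^ 2) :
    2 * k < d ∧ (1 - 4 / (d:ℝ)) * 2 ^ d + (1 + (d * (d + 1)) * Real.log (10 * d ^ 5 + 1) *
        (3 * (2 ^ d * Real.exp (-(((d:ℝ) - 2 * k) ^ 2 / (2 * d)))))) < 2 ^ d := by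
  have hd2 : (2:ℝ) ≤ d := by exact_mod_cast hd
  have hd0 : (0:ℝ) < d := by linarith
  have hlog0 : 0 < Real.log d := Real.log_pos (by linarith)
  have hk' : (2:ℝ) * k ≤ d := by exact_mod_cast hk
  have hk0 : (0:ℝ) ≤ k := Nat.cast_nonneg k
  have hlt : 2 * k < d := by
    rcases hk.lt_or_eq with h1 | h1
    · exact h1
    · exfalso
      have h2 : (2:ℝ) * k = d := by exact_mod_cast h1
      rw [h2, sub_self] at h
      have : 0 < 8 * (d * Real.log d) := by positivity
      norm_num at h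
      linarith
  refine ⟨hlt, ?_⟩
  have h8 : 8 * Real.log d ≤ d := by
    have h1 : ((d:ℝ) - 2 * k) ^ 2 ≤ d ^ 2 := pow_le_pow_left₀ (by linarith) (by linarith) 2
    have h2 : d * (8 * Real.log d) ≤ d * d := by nlinarith
    exact le_of_mul_le_mul_left h2 hd0
  have h23 := dim23 hd h8
  have hd23 : (23:ℝ) ≤ d := by exact_mod_cast h23
  have hexp : Real.exp (-(((d:ℝ) - 2 * k) ^ 2 / (2 * d))) ≤ ((d:ℝ) ^ 4)⁻¹ := by
    have h1 : 4 * Real.log d ≤ ((d:ℝ) - 2 * k) ^ 2 / (2 * d) := by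
      rw [le_div_iff₀ (by positivity)]
      linarith
    calc Real.exp (-(((d:ℝ) - 2 * k) ^ 2 / (2 * d))) ≤ Real.exp (-(4 * Real.log d)) :=
          Real.exp_le_exp.2 (by linarith)
      _ = ((d:ℝ) ^ 4)⁻¹ := by
          rw [Real.exp_neg]
          have : Real.exp (4 * Real.log d) = (d:ℝ) ^ 4 := by
            rw [mul_comm, Real.exp_mul, Real.exp_log hd0]
            norm_cast
          rw [this]
  have hlog : Real.log (10 * (d:ℝ) ^ 5 + 1) ≤ 2.7726 + 5 / 8 * d := by
    have h1 : 10 * (d:ℝ) ^ 5 + 1 ≤ 2 ^ 4 * d ^ 5 := by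
      have : 1 ≤ (d:ℝ) ^ 5 := one_le_pow₀ (by linarith)
      linarith
    have h2 := Real.log_le_log (by positivity) h1
    rw [Real.log_mul (by positivity) (by positivity), Real.log_pow, Real.log_pow] at h2
    have h3 : Real.log 2 < 0.6931471808 := Real.log_two_lt_d9
    push_cast at h2
    linarith
  have hlogn : 0 ≤ Real.log (10 * (d:ℝ) ^ 5 + 1) := by
    apply Real.log_nonneg
    have : 0 ≤ 10 * (d:ℝ) ^ 5 := by positivity
    linarith
  have hmain : (d * ((d:ℝ) + 1)) * Real.log (10 * d ^ 5 + 1) *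
        (3 * (2 ^ d * Real.exp (-(((d:ℝ) - 2 * k) ^ 2 / (2 * d))))) ≤ 3 / d * 2 ^ d := by
    calc (d * ((d:ℝ) + 1)) * Real.log (10 * d ^ 5 + 1) *
        (3 * (2 ^ d * Real.exp (-(((d:ℝ) - 2 * k) ^ 2 / (2 * d)))))
        ≤ (d * ((d:ℝ) + 1)) * (2.7726 + 5 / 8 * d) * (3 * (2 ^ d * ((d:ℝ) ^ 4)⁻¹)) := by
          apply mul_le_mul
          · exact mul_le_mul_of_nonneg_left hlog (by positivity)
          · exact mul_le_mul_of_nonneg_left (mul_le_mul_of_nonneg_left hexp (by positivity))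
              (by norm_num)
          · positivity
          · positivity
      _ = ((d:ℝ) + 1) * (2.7726 + 5 / 8 * d) * 3 / d ^ 2 * (1 / d * 2 ^ d) := by
          field_simp
      _ ≤ 3 * (1 / d * 2 ^ d) := by
          apply mul_le_mul_of_nonneg_right _ (by positivity)
          rw [div_le_iff₀ (by positivity)]
          nlinarith
      _ = 3 / d * 2 ^ d := by ring
  have h7 : (1:ℝ) < 1 / d * 2 ^ d := by
    have h8 : (d:ℝ) < 2 ^ d := by exact_mod_cast Nat.lt_two_pow_self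
    rw [one_div, inv_mul_eq_div, lt_div_iff₀ hd0]
    linarith
  have h9 : (1 - 4 / (d:ℝ)) * 2 ^ d + (1 + 3 / d * 2 ^ d) = 2 ^ d + 1 - 1 / d * 2 ^ d := by
    ring
  linarith

end Pool.Agent.TH84.NC
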