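import Pool.Agent.TH84.NC.Num

/-!
# Numerical estimates: all bodies
-/

set_option autoImplicit false

namespace Pool.Agent.TH84.NC

/-- the rate for all bodies -/
theorem rate_all {d k : ℕ} (hd : 1 ≤ d) (hk : 1 ≤ k) (hkd : k ≤ d) :
    ∃ θ : ℝ, 0 < θ ∧ θ < 1 ∧ 2 * d * θ ≤ 1 ∧ (1 + (2 * d * θ + 1 / d)) ^ d / θ ^ k ≤
      3 * (Real.exp k * (2 * (d:ℝ) ^ 2 / k) ^ k) := by
  have hd1 : (1:ℝ) ≤ d := by exact_mod_cast hd
  have hd0 : (0:ℝ) < d := by linarith
  have hk0 : (0:ℝ) < k := by exact_mod_cast hk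
  have hkd' : (k:ℝ) ≤ d := by exact_mod_cast hkd
  refine ⟨k / (2 * (d:ℝ) ^ 2), by positivity, ?_, ?_, ?_⟩
  · rw [div_lt_one (by positivity)]
    nlinarith
  · have e : 2 * (d:ℝ) * (k / (2 * (d:ℝ) ^ 2)) = k / d := by field_simp
    rw [e, div_le_one hd0]
    exact hkd'
  · have e : 2 * (d:ℝ) * (k / (2 * (d:ℝ) ^ 2)) = k / d := by field_simp
    rw [e]
    have h1 : (1 + ((k:ℝ) / d + 1 / d)) ^ d ≤ 3 * Real.exp k := by
      have h2 : 1 + ((k:ℝ) / d + 1 / d) ≤ Real.exp ((k + 1) / d) := by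
        have h3 := Real.add_one_le_exp (((k:ℝ) + 1) / d)
        have e2 : ((k:ℝ) + 1) / d = k / d + 1 / d := by ring
        linarith
      calc (1 + ((k:ℝ) / d + 1 / d)) ^ d ≤ Real.exp ((k + 1) / d) ^ d :=
            pow_le_pow_left₀ (by positivity) h2 d
        _ = Real.exp 1 * Real.exp k := by
            rw [← Real.exp_nat_mul, ← Real.exp_add]
            congr 1
            field_simp
            ring
        _ ≤ 3 * Real.exp k := by
            apply mul_le_mul_of_nonneg_right _ (Real.exp_pos _).le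
            have := Real.exp_one_lt_d9
            linarith
    have e3 : (k / (2 * (d:ℝ) ^ 2)) ^ k = ((2 * (d:ℝ) ^ 2 / k) ^ k)⁻¹ := by
      rw [← inv_pow, inv_div]
    rw [e3, div_inv_eq_mul]
    calc (1 + ((k:ℝ) / d + 1 / d)) ^ d * (2 * (d:ℝ) ^ 2 / k) ^ k ≤
        (3 * Real.exp k) * (2 * (d:ℝ) ^ 2 / k) ^ k := mul_le_mul_of_nonneg_right h1 (by positivity)
      _ = _ := by ring

/-- the strict bound for all bodies -/
theorem all_num {d k : ℕ} (hd : 1024 ≤ d) (hk : 1 ≤ k) (h : 3 * (k * Real.log d) ≤ d) :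
    k ≤ d ∧ (1 - 1 / (d:ℝ)) * 2 ^ d + (1 + (d * (d + 1)) * Real.log (20 * d ^ 6 + 1) *
        (3 * (Real.exp k * (2 * (d:ℝ) ^ 2 / k) ^ k))) < 2 ^ d := by
  have hd1 : (1024:ℝ) ≤ d := by exact_mod_cast hd
  have hd0 : (0:ℝ) < d := by linarith
  have hk0 : (1:ℝ) ≤ k := by exact_mod_cast hk
  have hl2 : 0.6931471803 < Real.log 2 := Real.log_two_gt_d9
  have hl2' : Real.log 2 < 0.6931471808 := Real.log_two_lt_d9
  set l : ℝ := Real.log d with hl
  have h1024 : Real.log 1024 = 10 * Real.log 2 := by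
    rw [show (1024:ℝ) = 2 ^ 10 by norm_num, Real.log_pow]; norm_num
  have hlge : 6.931 ≤ l := by
    have := Real.log_le_log (by norm_num) hd1
    rw [h1024] at this
    linarith
  have hlle : l ≤ d / 1024 + 5.9315 := by
    have h2 := Real.log_le_sub_one_of_pos (show 0 < (d:ℝ) / 1024 by positivity)
    rw [Real.log_div (by positivity) (by norm_num), h1024] at h2
    linarith
  have hl0 : 0 < l := by linarith
  set κ : ℝ := d / (3 * l) with hκ
  have hκ0 : 0 < κ := by positivity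
  have hkκ : (k:ℝ) ≤ κ := by
    rw [hκ, le_div_iff₀ (by positivity)]
    linarith
  have hkd : (k:ℝ) ≤ d := by
    refine hkκ.trans ?_
    rw [hκ, div_le_iff₀ (by positivity)]
    nlinarith
  refine ⟨by exact_mod_cast hkd, ?_⟩
  -- the exponent
  have hX : (k:ℝ) + k * Real.log (2 * (d:ℝ) ^ 2 / k) ≤ 0.582 * d := by
    have h2 : Real.log (2 * (d:ℝ) ^ 2 / k) ≤ Real.log (2 * (d:ℝ) ^ 2 / κ) + (κ / k - 1) := by
      have e : 2 * (d:ℝ) ^ 2 / k = (2 * (d:ℝ) ^ 2 / κ) * (κ / k) := by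
        field_simp
      rw [e, Real.log_mul (by positivity) (by positivity)]
      have := Real.log_le_sub_one_of_pos (show 0 < κ / k by positivity)
      linarith
    have h3 : Real.log (2 * (d:ℝ) ^ 2 / κ) ≤ 3.1589 + 8 / 7 * l := by
      have e : 2 * (d:ℝ) ^ 2 / κ = 6 * d * l := by
        rw [hκ]
        field_simp
        ring
      rw [e, Real.log_mul (by positivity) (by positivity), Real.log_mul (by norm_num) (by positivity)]
      have h4 : Real.log 6 ≤ 3 * Real.log 2 := by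
        have := Real.log_le_log (by norm_num) (show (6:ℝ) ≤ 8 by norm_num)
        rwa [show Real.log 8 = 3 * Real.log 2 by
          rw [show (8:ℝ) = 2 ^ 3 by norm_num, Real.log_pow]; norm_num] at this
      have h5 : Real.log l ≤ l / 7 + 3 * Real.log 2 - 1 := by
        have h6 := Real.log_le_sub_one_of_pos (show 0 < l / 7 by positivity)
        rw [Real.log_div (by positivity) (by norm_num)] at h6
        have h7 : Real.log 7 ≤ 3 * Real.log 2 := by
          have := Real.log_le_log (by norm_num) (show (7:ℝ) ≤ 8 by norm_num)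
          rwa [show Real.log 8 = 3 * Real.log 2 by
            rw [show (8:ℝ) = 2 ^ 3 by norm_num, Real.log_pow]; norm_num] at this
        linarith
      have h8 : Real.log d = l := rfl
      linarith
    have h3' : 0 ≤ Real.log (2 * (d:ℝ) ^ 2 / κ) := by
      apply Real.log_nonneg
      rw [le_div_iff₀ hκ0, hκ, one_mul, div_le_iff₀ (by positivity)]
      nlinarith
    have h4 : (k:ℝ) * Real.log (2 * (d:ℝ) ^ 2 / k) ≤
        k * Real.log (2 * (d:ℝ) ^ 2 / κ) + (κ - k) := by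
      have h5 := mul_le_mul_of_nonneg_left h2 (by linarith : (0:ℝ) ≤ k)
      have e : (k:ℝ) * (Real.log (2 * (d:ℝ) ^ 2 / κ) + (κ / k - 1)) =
          k * Real.log (2 * (d:ℝ) ^ 2 / κ) + (κ - k) := by
        field_simp
      linarith
    have h5 : (k:ℝ) * Real.log (2 * (d:ℝ) ^ 2 / κ) ≤ κ * Real.log (2 * (d:ℝ) ^ 2 / κ) :=
      mul_le_mul_of_nonneg_right hkκ h3'
    have h6 : κ * (1 + Real.log (2 * (d:ℝ) ^ 2 / κ)) ≤ κ * (4.1589 + 8 / 7 * l) :=
      mul_le_mul_of_nonneg_left (by linarith) hκ0.le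
    have h7 : κ * (4.1589 + 8 / 7 * l) ≤ 0.582 * d := by
      rw [hκ, div_mul_eq_mul_div, div_le_iff₀ (by positivity)]
      nlinarith
    linarith
  have hexpX : Real.exp k * (2 * (d:ℝ) ^ 2 / k) ^ k ≤ Real.exp (0.582 * d) := by
    have e : (2 * (d:ℝ) ^ 2 / k) ^ k = Real.exp (k * Real.log (2 * (d:ℝ) ^ 2 / k)) := by
      rw [Real.exp_nat_mul, Real.exp_log (by positivity)]
    rw [e, ← Real.exp_add]
    exact Real.exp_le_exp.2 hX
  have hlog : Real.log (20 * (d:ℝ) ^ 6 + 1) ≤ d := by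
    have h2 : 20 * (d:ℝ) ^ 6 + 1 ≤ 2 ^ 5 * d ^ 6 := by
      have : 1 ≤ (d:ℝ) ^ 6 := one_le_pow₀ (by linarith)
      linarith
    have h3 := Real.log_le_log (by positivity) h2
    rw [Real.log_mul (by positivity) (by positivity), Real.log_pow, Real.log_pow] at h3
    push_cast at h3
    have h8 : Real.log d = l := rfl
    linarith
  have hlogn : 0 ≤ Real.log (20 * (d:ℝ) ^ 6 + 1) := by
    apply Real.log_nonneg
    have : 0 ≤ 20 * (d:ℝ) ^ 6 := by positivity
    linarith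
  -- collect
  have hmain : (d * ((d:ℝ) + 1)) * Real.log (20 * d ^ 6 + 1) *
        (3 * (Real.exp k * (2 * (d:ℝ) ^ 2 / k) ^ k)) ≤
        (d * ((d:ℝ) + 1)) * d * (3 * Real.exp (0.582 * d)) := by
    apply mul_le_mul
    · exact mul_le_mul_of_nonneg_left hlog (by positivity)
    · linarith
    · positivity
    · positivity
  have h4d : 4 * (d:ℝ) ^ 4 ≤ Real.exp (0.11 * d) := by
    have e : 4 * (d:ℝ) ^ 4 = Real.exp (2 * Real.log 2 + 4 * l) := by
      rw [Real.exp_add, show 2 * Real.log 2 = Real.log (2 ^ 2) by rw [Real.log_pow]; norm_num,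
        Real.exp_log (by norm_num), mul_comm 4 l, Real.exp_mul, Real.exp_log hd0]
      norm_cast
    rw [e]
    apply Real.exp_le_exp.2
    linarith
  have h2d : Real.exp (0.692 * d) * Real.exp (0.001 * d) ≤ 2 ^ d := by
    have e : (2:ℝ) ^ d = Real.exp (d * Real.log 2) := by
      rw [mul_comm, Real.exp_mul, Real.exp_log (by norm_num), Real.rpow_natCast]
    rw [e, ← Real.exp_add]
    apply Real.exp_le_exp.2
    nlinarith
  have hq : 1 < Real.exp (0.001 * d) := by
    rw [Real.one_lt_exp_iff]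
    positivity
  have hY : 1 ≤ Real.exp (0.582 * d) := Real.one_le_exp (by positivity)
  have hfin : (d:ℝ) * (1 + (d * ((d:ℝ) + 1)) * d * (3 * Real.exp (0.582 * d))) < 2 ^ d := by
    set Y : ℝ := Real.exp (0.582 * d) with hYd
    have a1 : (d:ℝ) * (1 + (d * ((d:ℝ) + 1)) * d * (3 * Y)) ≤ 4 * (d:ℝ) ^ 4 * Y := by
      have b1 : (d:ℝ) ≤ d * Y := by nlinarith
      have b2 : (d:ℝ) * (1 + (d * ((d:ℝ) + 1)) * d * (3 * Y)) =
          d + (3 * d ^ 4 + 3 * d ^ 3) * Y := by ring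
      have b3 : d + 3 * (d:ℝ) ^ 3 ≤ d ^ 4 := by
        have c1 : (d:ℝ) ≤ d ^ 3 := le_self_pow₀ (by linarith) (by norm_num)
        have c2 : 4 * (d:ℝ) ^ 3 ≤ d * d ^ 3 := mul_le_mul_of_nonneg_right (by linarith) (by positivity)
        have c3 : (d:ℝ) * d ^ 3 = d ^ 4 := by ring
        linarith
      have b4 : (d + 3 * (d:ℝ) ^ 3) * Y ≤ d ^ 4 * Y := mul_le_mul_of_nonneg_right b3 (by linarith)
      rw [b2]
      nlinarith
    have a2 : 4 * (d:ℝ) ^ 4 * Y ≤ Real.exp (0.11 * d) * Y := mul_le_mul_of_nonneg_right h4d (by linarith)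
    have a3 : Real.exp (0.11 * d) * Y = Real.exp (0.692 * d) := by
      rw [hYd, ← Real.exp_add]
      congr 1
      ring
    have a4 : Real.exp (0.692 * d) < Real.exp (0.692 * d) * Real.exp (0.001 * d) :=
      lt_mul_of_one_lt_right (Real.exp_pos _) hq
    linarith
  have hfin2 : 1 + (d * ((d:ℝ) + 1)) * d * (3 * Real.exp (0.582 * d)) < 1 / d * 2 ^ d := by
    rw [one_div, inv_mul_eq_div, lt_div_iff₀ hd0]
    linarith
  have e : (1 - 1 / (d:ℝ)) * 2 ^ d = 2 ^ d - 1 / d * 2 ^ d := by ring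
  rw [e]
  linarith

end Pool.Agent.TH84.NC
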