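import Pool.Agent.TH84.NC.Fiber

/-!
# Pairs of points of a convex body
-/

set_option autoImplicit false

open MeasureTheory Set
open scoped ENNReal

namespace Pool.Agent.TH84.NC

/-- affine change of variables -/
theorem lint_affine {F : Type*} [NormedAddCommGroup F] [NormedSpace ℝ F] [FiniteDimensional ℝ F]
    [MeasurableSpace F] [BorelSpace F] (ν : Measure F) [ν.IsAddHaarMeasure] (θ : ℝ) (h0 : 0 < θ)
    (b : F) (g : F → ℝ≥0∞) (hg : Measurable g) :
    ∫⁻ y, g y ∂ν = ENNReal.ofReal (θ ^ Module.finrank ℝ F) * ∫⁻ y, g (b + θ • y) ∂ν := by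
  rw [← lintegral_add_left_eq_self g b]
  exact lint_smul ν θ h0 (fun y => g (b + y)) (hg.comp (measurable_const_add b))

/-- the sections of a convex set in product form -/
theorem sec_pl {F₁ F₂ : Type*} [NormedAddCommGroup F₁] [NormedSpace ℝ F₁]
    [MeasurableSpace F₁] [BorelSpace F₁] [NormedAddCommGroup F₂]
    [NormedSpace ℝ F₂] [FiniteDimensional ℝ F₂] [MeasurableSpace F₂] [BorelSpace F₂]
    (ν₂ : Measure F₂) [ν₂.IsAddHaarMeasure]
    (M : Set (F₁ × F₂)) (hMm : MeasurableSet M) (hconv : Convex ℝ M)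
    (t : ℝ) (ht0 : 0 < t) (ht1 : t < 1) (q s : F₁) :
    (ν₂ (Prod.mk q ⁻¹' M)) ^ (1 - t) * (ν₂ (Prod.mk s ⁻¹' M)) ^ t ≤
      ν₂ (Prod.mk ((1 - t) • q + t • s) ⁻¹' M) := by
  have hmy : ∀ y, MeasurableSet (Prod.mk y ⁻¹' M : Set F₂) := fun y => measurable_prodMk_left hMm
  have hPL := Pool.Agent.H212R2.KLS.PL ν₂ t ht0 ht1 ((Prod.mk q ⁻¹' M).indicator 1)
    ((Prod.mk s ⁻¹' M).indicator 1) ((Prod.mk ((1 - t) • q + t • s) ⁻¹' M).indicator 1)
    (measurable_one.indicator (hmy _)) (measurable_one.indicator (hmy _))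
    (measurable_one.indicator (hmy _)) ?_
  · rw [lintegral_indicator_one (hmy _), lintegral_indicator_one (hmy _),
      lintegral_indicator_one (hmy _)] at hPL
    exact hPL
  · intro x y
    by_cases hx : x ∈ Prod.mk q ⁻¹' M
    · by_cases hy : y ∈ Prod.mk s ⁻¹' M
      · have hxy : (1 - t) • x + t • y ∈ Prod.mk ((1 - t) • q + t • s) ⁻¹' M := by
          have h2 := hconv hx hy (show 0 ≤ 1 - t by linarith) ht0.le (by ring)
          have e : (1 - t) • (q, x) + t • (s, y) =
              ((1 - t) • q + t • s, (1 - t) • x + t • y) := by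
            rw [Prod.smul_mk, Prod.smul_mk, Prod.mk_add_mk]
          rw [e] at h2
          exact h2
        rw [indicator_of_mem hx, indicator_of_mem hy, indicator_of_mem hxy]
        simp
      · rw [indicator_of_notMem hy, ENNReal.zero_rpow_of_pos ht0, mul_zero]
        exact bot_le
    · rw [indicator_of_notMem hx, ENNReal.zero_rpow_of_pos (by linarith), zero_mul]
      exact bot_le

/-- **pairs**, product form -/
theorem pair_prod {F₁ F₂ : Type*} [NormedAddCommGroup F₁] [NormedSpace ℝ F₁]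
    [FiniteDimensional ℝ F₁] [MeasurableSpace F₁] [BorelSpace F₁] [NormedAddCommGroup F₂]
    [NormedSpace ℝ F₂] [FiniteDimensional ℝ F₂] [MeasurableSpace F₂] [BorelSpace F₂]
    (ν₁ : Measure F₁) [ν₁.IsAddHaarMeasure] (ν₂ : Measure F₂) [ν₂.IsAddHaarMeasure]
    (M : Set (F₁ × F₂)) (hMc : IsCompact M) (hconv : Convex ℝ M)
    (τ : ℝ) (h0 : 0 < τ) (h1 : τ < 1) :
    ENNReal.ofReal ((τ / (2 - τ)) ^ Module.finrank ℝ F₁) *
        ((ν₁.prod ν₂) M * (ν₁.prod ν₂) M) ≤
      ((ν₁.prod ν₂).prod (ν₁.prod ν₂)) {z : (F₁ × F₂) × (F₁ × F₂) | z.1 ∈ M ∧ z.2 ∈ M ∧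
        ∃ q ∈ M, z.1.1 = (1 - τ) • z.2.1 + τ • q.1} := by
  have hMm : MeasurableSet M := hMc.measurableSet
  set n : ℕ := Module.finrank ℝ F₁ with hn
  set t : ℝ := 1 / (2 - τ) with ht
  have ht0 : 0 < t := by rw [ht]; apply div_pos one_pos; linarith
  have ht1 : t < 1 := by rw [ht, div_lt_one (by linarith)]; linarith
  have ht2 : (1 - τ) * t = 1 - t := by
    rw [ht]
    have : (2:ℝ) - τ ≠ 0 := by linarith
    field_simp
    ring
  set π : Set F₁ := Prod.fst '' M with hπ
  have hπc : IsCompact π := hMc.image continuous_fst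
  have hπm : MeasurableSet π := hπc.measurableSet
  set S : Set ((F₁ × F₂) × (F₁ × F₂)) := {z | z.1 ∈ M ∧ z.2 ∈ M ∧
        ∃ q ∈ M, z.1.1 = (1 - τ) • z.2.1 + τ • q.1} with hS
  have hSe : S = (M ×ˢ M) ∩ (fun z : (F₁ × F₂) × (F₁ × F₂) => z.1.1 - (1 - τ) • z.2.1) ⁻¹'
      ((fun y => τ • y) '' π) := by
    ext z
    constructor
    · rintro ⟨h1, h2, q, hq, h3⟩
      exact ⟨⟨h1, h2⟩, q.1, ⟨q, hq, rfl⟩, by
        show τ • q.1 = z.1.1 - (1 - τ) • z.2.1
        rw [h3]; abel⟩
    · rintro ⟨⟨h1, h2⟩, y, ⟨q, hq, rfl⟩, h3⟩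
      refine ⟨h1, h2, q, hq, ?_⟩
      have h4 : τ • q.1 = z.1.1 - (1 - τ) • z.2.1 := h3
      rw [h4]; abel
  have hSm : MeasurableSet S := by
    rw [hSe]
    apply (hMm.prod hMm).inter
    apply measurableSet_preimage
    · have : Continuous fun z : (F₁ × F₂) × (F₁ × F₂) => z.1.1 - (1 - τ) • z.2.1 := by fun_prop
      exact this.measurable
    · exact (hπc.image (continuous_const_smul τ)).measurableSet
  set ρ : F₁ → ℝ≥0∞ := fun y => ν₂ (Prod.mk y ⁻¹' M) with hρ
  have hρm : Measurable ρ := measurable_measure_prodMk_left hMm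
  have hV : ∫⁻ y, ρ y ∂ν₁ = (ν₁.prod ν₂) M := (Measure.prod_apply hMm).symm
  -- the inner measure
  have hG : ∀ r : F₁ × F₂, r ∈ M → (ν₁.prod ν₂) ((fun p => (p, r)) ⁻¹' S) =
      ENNReal.ofReal (τ ^ n) * ∫⁻ q, π.indicator (fun q => ρ ((1 - τ) • r.1 + τ • q)) q ∂ν₁ := by
    intro r hr
    have hm1 : MeasurableSet ((fun p : F₁ × F₂ => (p, r)) ⁻¹' S) := measurable_prodMk_right hSm
    rw [Measure.prod_apply hm1]
    set B : Set F₁ := (fun q => (1 - τ) • r.1 + τ • q) '' π with hB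
    have hBm : MeasurableSet B := (hπc.image (by fun_prop)).measurableSet
    have e1 : ∀ y, ν₂ (Prod.mk y ⁻¹' ((fun p : F₁ × F₂ => (p, r)) ⁻¹' S)) = B.indicator ρ y := by
      intro y
      by_cases hy : y ∈ B
      · rw [indicator_of_mem hy]
        congr 1
        ext z
        obtain ⟨a, ⟨q, hq, rfl⟩, hqy⟩ := hy
        constructor
        · rintro ⟨h1, -, -⟩
          exact h1
        · intro h1
          exact ⟨h1, hr, q, hq, hqy.symm⟩
      · rw [indicator_of_notMem hy]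
        have : Prod.mk y ⁻¹' ((fun p : F₁ × F₂ => (p, r)) ⁻¹' S) = ∅ := by
          ext z
          simp only [mem_preimage, mem_empty_iff_false, iff_false]
          rintro ⟨h1, -, q, hq, h3⟩
          exact hy ⟨q.1, ⟨q, hq, rfl⟩, h3.symm⟩
        rw [this, measure_empty]
    simp_rw [e1]
    rw [lint_affine ν₁ τ h0 ((1 - τ) • r.1) _ (hρm.indicator hBm)]
    congr 1
    refine lintegral_congr fun q => ?_
    by_cases hq : q ∈ π
    · have : (1 - τ) • r.1 + τ • q ∈ B := ⟨q, hq, rfl⟩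
      rw [indicator_of_mem this, indicator_of_mem hq]
    · have : (1 - τ) • r.1 + τ • q ∉ B := by
        rintro ⟨q', hq', he⟩
        have h2 : τ • q' = τ • q := by
          have h3 : (1 - τ) • r.1 + τ • q' = (1 - τ) • r.1 + τ • q := he
          exact add_left_cancel h3
        have h3 : q' = q := smul_right_injective F₁ h0.ne' h2
        exact hq (h3 ▸ hq')
      rw [indicator_of_notMem this, indicator_of_notMem hq]
  have hG0 : ∀ r : F₁ × F₂, r ∉ M → (ν₁.prod ν₂) ((fun p => (p, r)) ⁻¹' S) = 0 := by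
    intro r hr
    have : (fun p : F₁ × F₂ => (p, r)) ⁻¹' S = ∅ := by
      ext p
      simp only [mem_preimage, mem_empty_iff_false, iff_false]
      rintro ⟨-, h2, -⟩
      exact hr h2
    rw [this, measure_empty]
  rw [Measure.prod_apply_symm hSm]
  -- the integrand as a function of `r.1`
  let G : F₁ → ℝ≥0∞ := fun a => ∫⁻ q, π.indicator (fun q => ρ ((1 - τ) • a + τ • q)) q ∂ν₁
  have hjm : Measurable fun z : F₁ × F₁ => π.indicator (fun q => ρ ((1 - τ) • z.1 + τ • q)) z.2 := by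
    have h2 : Measurable fun z : F₁ × F₁ => ρ ((1 - τ) • z.1 + τ • z.2) := by
      apply hρm.comp
      have : Continuous fun z : F₁ × F₁ => (1 - τ) • z.1 + τ • z.2 := by fun_prop
      exact this.measurable
    have h3 : (fun z : F₁ × F₁ => π.indicator (fun q => ρ ((1 - τ) • z.1 + τ • q)) z.2) =
        (Prod.snd ⁻¹' π).indicator (fun z : F₁ × F₁ => ρ ((1 - τ) • z.1 + τ • z.2)) := by
      funext z
      by_cases hz : z.2 ∈ π
      · rw [indicator_of_mem hz, indicator_of_mem (show z ∈ Prod.snd ⁻¹' π from hz)]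
      · rw [indicator_of_notMem hz, indicator_of_notMem (show z ∉ Prod.snd ⁻¹' π from hz)]
    rw [h3]
    exact h2.indicator (measurable_snd hπm)
  have hGm : Measurable G := Measurable.lintegral_prod_right hjm
  have e2 : ∫⁻ r, (ν₁.prod ν₂) ((fun p => (p, r)) ⁻¹' S) ∂(ν₁.prod ν₂) =
      ENNReal.ofReal (τ ^ n) * ∫⁻ a, ρ a * G a ∂ν₁ := by
    have e3 : ∀ r : F₁ × F₂, (ν₁.prod ν₂) ((fun p => (p, r)) ⁻¹' S) =
        ENNReal.ofReal (τ ^ n) * (M.indicator (fun r => G r.1) r) := by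
      intro r
      by_cases hr : r ∈ M
      · rw [indicator_of_mem hr, hG r hr]
      · rw [indicator_of_notMem hr, hG0 r hr, mul_zero]
    simp_rw [e3]
    have hm2 : Measurable (M.indicator (fun r : F₁ × F₂ => G r.1)) :=
      (hGm.comp measurable_fst).indicator hMm
    rw [lintegral_const_mul _ hm2, lintegral_prod _ hm2.aemeasurable]
    congr 1
    refine lintegral_congr fun a => ?_
    have e4 : ∀ b, M.indicator (fun r : F₁ × F₂ => G r.1) (a, b) =
        G a * (Prod.mk a ⁻¹' M).indicator 1 b := by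
      intro b
      by_cases hb : (a, b) ∈ M
      · rw [indicator_of_mem hb, indicator_of_mem (show b ∈ Prod.mk a ⁻¹' M from hb)]
        simp
      · rw [indicator_of_notMem hb, indicator_of_notMem (show b ∉ Prod.mk a ⁻¹' M from hb),
          mul_zero]
    simp_rw [e4]
    have hm3 : MeasurableSet (Prod.mk a ⁻¹' M) := measurable_prodMk_left hMm
    rw [lintegral_const_mul _ (measurable_one.indicator hm3), lintegral_indicator_one hm3, mul_comm]
  rw [e2]
  -- Tonelli
  have e5 : ∫⁻ a, ρ a * G a ∂ν₁ = ∫⁻ q, ∫⁻ a, ρ a * π.indicator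
      (fun q => ρ ((1 - τ) • a + τ • q)) q ∂ν₁ ∂ν₁ := by
    have e6 : ∀ a, ρ a * G a = ∫⁻ q, ρ a * π.indicator (fun q => ρ ((1 - τ) • a + τ • q)) q ∂ν₁ := by
      intro a
      rw [lintegral_const_mul]
      exact hjm.comp measurable_prodMk_left
    simp_rw [e6]
    rw [lintegral_lintegral_swap]
    exact ((hρm.comp measurable_fst).mul hjm).aemeasurable
  have e7 : ∀ q, ENNReal.ofReal (t ^ n) * (ρ q * ∫⁻ s, ρ s ∂ν₁) ≤
      ∫⁻ a, ρ a * π.indicator (fun q => ρ ((1 - τ) • a + τ • q)) q ∂ν₁ := by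
    intro q
    by_cases hq : q ∈ π
    · have e8 : ∀ a, π.indicator (fun q => ρ ((1 - τ) • a + τ • q)) q = ρ ((1 - τ) • a + τ • q) :=
        fun a => indicator_of_mem hq _
      simp_rw [e8]
      have hm4 : Measurable fun a : F₁ => ρ a * ρ ((1 - τ) • a + τ • q) := by
        apply hρm.mul
        apply hρm.comp
        have : Continuous fun a : F₁ => (1 - τ) • a + τ • q := by fun_prop
        exact this.measurable
      rw [lint_affine ν₁ t ht0 ((1 - t) • q) _ hm4]
      gcongr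
      rw [← lintegral_const_mul _ hρm]
      refine lintegral_mono fun s => ?_
      have h2 := sec_pl ν₂ M hMm hconv t ht0 ht1 q s
      have h3 := sec_pl ν₂ M hMm hconv (1 - t) (by linarith) (by linarith) q s
      have e9 : (1 - τ) • ((1 - t) • q + t • s) + τ • q = (1 - (1 - t)) • q + (1 - t) • s := by
        rw [smul_add, smul_smul, smul_smul, ht2, add_right_comm, ← add_smul]
        congr 2
        nlinarith
      show ρ q * ρ s ≤ ρ ((1 - t) • q + t • s) * ρ ((1 - τ) • ((1 - t) • q + t • s) + τ • q)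
      rw [e9]
      calc ρ q * ρ s = (ρ q ^ (1 - t) * ρ s ^ t) * (ρ q ^ (1 - (1 - t)) * ρ s ^ (1 - t)) := by
            have a1 : ρ q = ρ q ^ (1 - t) * ρ q ^ (1 - (1 - t)) := by
              rw [← ENNReal.rpow_add_of_nonneg _ _ (by linarith) (by linarith)]
              simp
            have a2 : ρ s = ρ s ^ t * ρ s ^ (1 - t) := by
              rw [← ENNReal.rpow_add_of_nonneg _ _ (by linarith) (by linarith)]
              simp
            calc ρ q * ρ s = (ρ q ^ (1 - t) * ρ q ^ (1 - (1 - t))) * (ρ s ^ t * ρ s ^ (1 - t)) := by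
                  rw [← a1, ← a2]
              _ = _ := by ring
        _ ≤ _ := mul_le_mul' h2 h3
    · have hz : ρ q = 0 := by
        show ν₂ (Prod.mk q ⁻¹' M) = 0
        have : Prod.mk q ⁻¹' M = ∅ := by
          ext z
          simp only [mem_preimage, mem_empty_iff_false, iff_false]
          intro hz
          exact hq ⟨_, hz, rfl⟩
        rw [this, measure_empty]
      rw [hz, zero_mul, mul_zero]
      exact bot_le
  rw [e5]
  have hc : ENNReal.ofReal ((τ / (2 - τ)) ^ n) = ENNReal.ofReal (τ ^ n) * ENNReal.ofReal (t ^ n) := by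
    rw [← ENNReal.ofReal_mul (by positivity), ← mul_pow]
    congr 2
    rw [ht]
    ring
  rw [hc, mul_assoc]
  gcongr
  calc ENNReal.ofReal (t ^ n) * ((ν₁.prod ν₂) M * (ν₁.prod ν₂) M)
      = ∫⁻ q, ENNReal.ofReal (t ^ n) * (ρ q * ∫⁻ s, ρ s ∂ν₁) ∂ν₁ := by
        rw [lintegral_const_mul _ (hρm.mul_const _), lintegral_mul_const _ hρm, hV]
    _ ≤ _ := lintegral_mono fun q => e7 q

end Pool.Agent.TH84.NC
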