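import Pool.Agent.TH84.NC.Pair
import Pool.Agent.TH84.NC.Net

/-!
# Pairs of points: transport and the probability of the event
-/

set_option autoImplicit false

open MeasureTheory Set ProbabilityTheory
open scoped ENNReal RealInnerProductSpace

namespace Pool.Agent.TH84.NC

open Pool.Agent.PZ871 (E)

/-- **pairs** -/
theorem pair_E {V : Type*} [NormedAddCommGroup V] [NormedSpace ℝ V] [FiniteDimensional ℝ V]
    [MeasurableSpace V] [BorelSpace V] (μ : Measure V) [μ.IsAddHaarMeasure] (K : Set V)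
    (hKc : IsCompact K) (hconv : Convex ℝ K) (P : V →L[ℝ] V) (k : ℕ)
    (hP : Module.finrank ℝ V ≤ Module.finrank ℝ (LinearMap.ker (P : V →ₗ[ℝ] V)) + k)
    (τ : ℝ) (h0 : 0 < τ) (h1 : τ < 1)
    (hBm : MeasurableSet {z : V × V | z.1 ∈ K ∧ z.2 ∈ K ∧
      ∃ q ∈ K, P z.1 = P ((1 - τ) • z.2 + τ • q)}) :
    ENNReal.ofReal ((τ / (2 - τ)) ^ k) * (μ K * μ K) ≤
      (μ.prod μ) {z : V × V | z.1 ∈ K ∧ z.2 ∈ K ∧
        ∃ q ∈ K, P z.1 = P ((1 - τ) • z.2 + τ • q)} := by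
  set Λ : Submodule ℝ V := LinearMap.ker (P : V →ₗ[ℝ] V) with hΛ
  obtain ⟨Λ', hc⟩ := Submodule.exists_isCompl Λ
  let e₀ : (Λ' × Λ) ≃ₗ[ℝ] V := Submodule.prodEquivOfIsCompl Λ' Λ hc.symm
  let e : (Λ' × Λ) ≃L[ℝ] V := e₀.toContinuousLinearEquiv
  have he : ∀ p : Λ' × Λ, e p = (p.1 : V) + p.2 := by
    intro p
    show e₀ p = _
    exact Submodule.coe_prodEquivOfIsCompl' Λ' Λ hc.symm p
  let ν₁ : Measure Λ' := Measure.addHaar
  let ν₂ : Measure Λ := Measure.addHaar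
  have hmap : (Measure.map e (ν₁.prod ν₂)).IsAddHaarMeasure := e.isAddHaarMeasure_map (ν₁.prod ν₂)
  have hc' := Measure.isAddLeftInvariant_eq_smul μ (Measure.map e (ν₁.prod ν₂))
  set c := Measure.addHaarScalarFactor μ (Measure.map e (ν₁.prod ν₂)) with hcd
  have hem : Measurable e := e.continuous.measurable
  have hMc : IsCompact (e ⁻¹' K) := by
    have h2 : IsCompact (e.toHomeomorph ⁻¹' K) := e.toHomeomorph.isCompact_preimage.2 hKc
    exact h2
  have hconv' : Convex ℝ (e ⁻¹' K) := hconv.linear_preimage (e : (Λ' × Λ) →ₗ[ℝ] V)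
  have h := pair_prod ν₁ ν₂ (e ⁻¹' K) hMc hconv' τ h0 h1
  have hfr : Module.finrank ℝ Λ' ≤ k := by
    have := Submodule.finrank_add_eq_of_isCompl hc
    omega
  have hr0 : 0 ≤ τ / (2 - τ) := div_nonneg h0.le (by linarith)
  have hr1 : τ / (2 - τ) ≤ 1 := by
    rw [div_le_one (by linarith)]; linarith
  have hθ : ENNReal.ofReal ((τ / (2 - τ)) ^ k) ≤
      ENNReal.ofReal ((τ / (2 - τ)) ^ Module.finrank ℝ Λ') :=
    ENNReal.ofReal_le_ofReal (pow_le_pow_of_le_one hr0 hr1 hfr)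
  set B : Set (V × V) := {z : V × V | z.1 ∈ K ∧ z.2 ∈ K ∧
      ∃ q ∈ K, P z.1 = P ((1 - τ) • z.2 + τ • q)} with hB
  have hcm : μ = (c : ℝ≥0∞) • Measure.map e (ν₁.prod ν₂) := hc'
  have hK1 : μ K = c * (ν₁.prod ν₂) (e ⁻¹' K) := by
    rw [hc', Measure.smul_apply, Measure.map_apply hem hKc.measurableSet]
    rfl
  have hS1 : (μ.prod μ) B = c * (c * ((ν₁.prod ν₂).prod (ν₁.prod ν₂)) (Prod.map e e ⁻¹' B)) := by
    rw [hcm, Measure.prod_smul_left, Measure.prod_smul_right, Measure.smul_apply,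
      Measure.smul_apply, Measure.map_prod_map _ _ hem hem,
      Measure.map_apply (hem.prodMap hem) hBm, smul_eq_mul, smul_eq_mul]
  rw [hK1, hS1]
  have hsub : {z : (Λ' × Λ) × (Λ' × Λ) | z.1 ∈ e ⁻¹' K ∧ z.2 ∈ e ⁻¹' K ∧
        ∃ q ∈ e ⁻¹' K, z.1.1 = (1 - τ) • z.2.1 + τ • q.1} ⊆ Prod.map e e ⁻¹' B := by
    rintro p ⟨hp, hp2, q, hq, hpq⟩
    refine ⟨hp, hp2, e q, hq, ?_⟩
    have hker : ∀ r : Λ' × Λ, P (e r) = P (r.1 : V) := by
      intro r
      rw [he, map_add]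
      have : P (r.2 : V) = 0 := r.2.2
      rw [this, add_zero]
    show P (e p.1) = P ((1 - τ) • e p.2 + τ • e q)
    rw [map_add, map_smul, map_smul, hker, hker, hker, hpq, Submodule.coe_add,
      Submodule.coe_smul, Submodule.coe_smul, map_add, map_smul, map_smul]
  calc ENNReal.ofReal ((τ / (2 - τ)) ^ k) *
        (c * (ν₁.prod ν₂) (e ⁻¹' K) * (c * (ν₁.prod ν₂) (e ⁻¹' K)))
      = c * (c * (ENNReal.ofReal ((τ / (2 - τ)) ^ k) *
          ((ν₁.prod ν₂) (e ⁻¹' K) * (ν₁.prod ν₂) (e ⁻¹' K)))) := by ring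
    _ ≤ c * (c * (ENNReal.ofReal ((τ / (2 - τ)) ^ Module.finrank ℝ Λ') *
          ((ν₁.prod ν₂) (e ⁻¹' K) * (ν₁.prod ν₂) (e ⁻¹' K)))) := by
        gcongr
    _ ≤ c * (c * ((ν₁.prod ν₂).prod (ν₁.prod ν₂)) (Prod.map e e ⁻¹' B)) := by
        gcongr
        exact h.trans (measure_mono hsub)

/-- the set of good pairs -/
def Bp {d : ℕ} (K : Set (E d)) (τ : ℝ) (P : E d →L[ℝ] E d) : Set (E d × E d) :=
  {z | z.1 ∈ K ∧ z.2 ∈ K ∧ ∃ q ∈ K, P z.1 = P ((1 - τ) • z.2 + τ • q)}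

theorem Bp_compact {d : ℕ} {K : Set (E d)} (hKc : IsCompact K) (τ : ℝ) (P : E d →L[ℝ] E d) :
    IsCompact (Bp K τ P) := by
  have e1 : Bp K τ P = (K ×ˢ K) ∩ (fun z : E d × E d => P z.1 - P ((1 - τ) • z.2)) ⁻¹'
      ((fun q => P (τ • q)) '' K) := by
    ext z
    constructor
    · rintro ⟨h1, h2, q, hq, h3⟩
      refine ⟨⟨h1, h2⟩, q, hq, ?_⟩
      show P (τ • q) = P z.1 - P ((1 - τ) • z.2)
      rw [h3, map_add]; abel
    · rintro ⟨⟨h1, h2⟩, q, hq, h3⟩
      refine ⟨h1, h2, q, hq, ?_⟩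
      have h4 : P (τ • q) = P z.1 - P ((1 - τ) • z.2) := h3
      rw [map_add, h4]; abel
  rw [e1]
  apply (hKc.prod hKc).inter_right
  apply IsClosed.preimage
  · fun_prop
  · exact (hKc.image (by fun_prop)).isClosed

/-- an affine map -/
theorem map_aff {d : ℕ} (l : ℝ) (hl : 0 < l) (a : E d) :
    Measure.map (fun z : E d => l • (z - a)) (volume : Measure (E d)) =
      ENNReal.ofReal ((l ^ d)⁻¹) • (volume : Measure (E d)) := by
  have hfr : Module.finrank ℝ (E d) = d := by simp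
  have e1 : (fun z : E d => l • (z - a)) = (fun z => l • z) ∘ (fun z => z - a) := rfl
  rw [e1, ← Measure.map_map (measurable_const_smul l) (measurable_sub_const a),
    map_sub_right_eq_self, Measure.map_addHaar_smul _ hl.ne', hfr, abs_of_pos (by positivity)]

/-- the event -/
def Sp {d : ℕ} (K : Set (E d)) (τ ε : ℝ) (P : E d →L[ℝ] E d) (p x : E d) : Set (E d × E d) :=
  {z | ((1 - ε)⁻¹ • (z.1 - ε • p),
    ((1 - ε) * (1 - τ))⁻¹ • (z.2 - (1 - (1 - ε) * (1 - τ)) • x)) ∈ Bp K τ P}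

theorem Sp_meas {d : ℕ} {K : Set (E d)} (hKc : IsCompact K) (τ ε : ℝ) (P : E d →L[ℝ] E d)
    (p x : E d) : MeasurableSet (Sp K τ ε P p x) :=
  ((Bp_compact hKc τ P).isClosed.preimage (by fun_prop :
    Continuous fun z : E d × E d => ((1 - ε)⁻¹ • (z.1 - ε • p),
      ((1 - ε) * (1 - τ))⁻¹ • (z.2 - (1 - (1 - ε) * (1 - τ)) • x)))).measurableSet

theorem Sp_prob {d k : ℕ} {K : Set (E d)} (hKc : IsCompact K) (hconv : Convex ℝ K)
    (hi : (interior K).Nonempty) (τ ε : ℝ) (h0 : 0 < τ) (h1 : τ < 1) (hε0 : 0 < ε) (hε1 : ε < 1)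
    (P : E d →L[ℝ] E d)
    (hP : d ≤ Module.finrank ℝ (LinearMap.ker (P : E d →ₗ[ℝ] E d)) + k) (p x : E d)
    (hp : p ∈ K) (hx : x ∈ K) :
    (1 - ε) ^ d * ((1 - ε) * (1 - τ)) ^ d * (τ / (2 - τ)) ^ k ≤
      (ProbabilityTheory.cond ((volume : Measure (E d)).prod (volume : Measure (E d)))
        (K ×ˢ K)).real (Sp K τ ε P p x) := by
  have hfr : Module.finrank ℝ (E d) = d := by simp
  have hb0 : 0 < (1 - ε) * (1 - τ) := mul_pos (by linarith) (by linarith)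
  have hb1 : (1 - ε) * (1 - τ) ≤ 1 := by nlinarith
  have he0 : 0 < 1 - ε := by linarith
  set b : ℝ := (1 - ε) * (1 - τ) with hb
  have hr0 : 0 < τ / (2 - τ) := div_pos h0 (by linarith)
  have hpair := pair_E (volume : Measure (E d)) K hKc hconv P k (by rw [hfr]; exact hP) τ h0 h1
    (Bp_compact hKc τ P).measurableSet
  have hK0 : volume K ≠ 0 :=
    (lt_of_lt_of_le (isOpen_interior.measure_pos volume hi) (measure_mono interior_subset)).ne'
  have hKt : volume K ≠ ∞ := hKc.measure_ne_top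
  have hsub : Sp K τ ε P p x ⊆ K ×ˢ K := by
    rintro z ⟨h2, h3, -⟩
    constructor
    · have h4 := hconv h2 hp he0.le hε0.le (by ring)
      have e : (1 - ε) • ((1 - ε)⁻¹ • (z.1 - ε • p)) + ε • p = z.1 := by
        rw [smul_smul, mul_inv_cancel₀ he0.ne', one_smul]
        abel
      have h5 : (1 - ε) • ((1 - ε)⁻¹ • (z.1 - ε • p)) + ε • p ∈ K := h4
      rwa [e] at h5
    · have h4 := hconv h3 hx hb0.le (show 0 ≤ 1 - b by linarith) (by ring)
      have e : b • (b⁻¹ • (z.2 - (1 - b) • x)) + (1 - b) • x = z.2 := by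
        rw [smul_smul, mul_inv_cancel₀ hb0.ne', one_smul]
        abel
      have h5 : b • (b⁻¹ • (z.2 - (1 - b) • x)) + (1 - b) • x ∈ K := h4
      rwa [e] at h5
  have hvol : ((volume : Measure (E d)).prod (volume : Measure (E d))) (Sp K τ ε P p x) =
      ENNReal.ofReal ((1 - ε) ^ d) * (ENNReal.ofReal (b ^ d) *
        ((volume : Measure (E d)).prod (volume : Measure (E d))) (Bp K τ P)) := by
    have e1 : Sp K τ ε P p x = Prod.map (fun z : E d => (1 - ε)⁻¹ • (z - ε • p))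
        (fun z : E d => b⁻¹ • (z - (1 - b) • x)) ⁻¹' (Bp K τ P) := rfl
    have m1 : Measurable (fun z : E d => (1 - ε)⁻¹ • (z - ε • p)) :=
      (by fun_prop : Continuous fun z : E d => (1 - ε)⁻¹ • (z - ε • p)).measurable
    have m2 : Measurable (fun z : E d => b⁻¹ • (z - (1 - b) • x)) :=
      (by fun_prop : Continuous fun z : E d => b⁻¹ • (z - (1 - b) • x)).measurable
    have e2 : (((1 - ε)⁻¹) ^ d)⁻¹ = (1 - ε) ^ d := by rw [inv_pow, inv_inv]
    have e3 : ((b⁻¹) ^ d)⁻¹ = b ^ d := by rw [inv_pow, inv_inv]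
    rw [e1, ← Measure.map_apply (m1.prodMap m2) (Bp_compact hKc τ P).measurableSet,
      ← Measure.map_prod_map _ _ m1 m2, map_aff _ (inv_pos.2 he0), map_aff _ (inv_pos.2 hb0),
      Measure.prod_smul_left, Measure.prod_smul_right, Measure.smul_apply, Measure.smul_apply,
      smul_eq_mul, smul_eq_mul, e2, e3]
  have h3 : ENNReal.ofReal ((1 - ε) ^ d * b ^ d * (τ / (2 - τ)) ^ k) *
      (((volume : Measure (E d)).prod (volume : Measure (E d))) (K ×ˢ K)) ≤
      ((volume : Measure (E d)).prod (volume : Measure (E d))) (Sp K τ ε P p x) := by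
    rw [hvol, Measure.prod_prod]
    have e2 : ENNReal.ofReal ((1 - ε) ^ d * b ^ d * (τ / (2 - τ)) ^ k) =
        ENNReal.ofReal ((1 - ε) ^ d) * (ENNReal.ofReal (b ^ d) *
          ENNReal.ofReal ((τ / (2 - τ)) ^ k)) := by
      rw [← ENNReal.ofReal_mul (by positivity), ← ENNReal.ofReal_mul (by positivity)]
      congr 1
      ring
    rw [e2, mul_assoc, mul_assoc]
    gcongr
    exact hpair
  have hKK0 : ((volume : Measure (E d)).prod (volume : Measure (E d))) (K ×ˢ K) ≠ 0 := by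
    rw [Measure.prod_prod]
    exact mul_ne_zero hK0 hK0
  have hKKt : ((volume : Measure (E d)).prod (volume : Measure (E d))) (K ×ˢ K) ≠ ∞ := by
    rw [Measure.prod_prod]
    exact ENNReal.mul_ne_top hKt hKt
  have h4 : ENNReal.ofReal ((1 - ε) ^ d * b ^ d * (τ / (2 - τ)) ^ k) ≤
      ProbabilityTheory.cond ((volume : Measure (E d)).prod (volume : Measure (E d)))
        (K ×ˢ K) (Sp K τ ε P p x) := by
    rw [ProbabilityTheory.cond_apply (hKc.measurableSet.prod hKc.measurableSet),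
      inter_eq_self_of_subset_right hsub,
      ← ENNReal.div_eq_inv_mul, ENNReal.le_div_iff_mul_le (Or.inl hKK0) (Or.inl hKKt)]
    exact h3
  have h5 := ENNReal.toReal_mono (measure_ne_top _ _) h4
  rwa [ENNReal.toReal_ofReal (by positivity)] at h5

end Pool.Agent.TH84.NC
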